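import Mathlib

set_option autoImplicit false

/-! A complete bifix code `P` (finite alphabet): `P⁺` is recognized by a finite local group. -/

namespace Pool.Agent.R544.LG

/-- complete bifix codes; `R` bounds the completeness. -/
structure Bif {B : Type} (P : Set (List B)) (R : ℕ) : Prop where
  ne : [] ∉ P
  pre : ∀ p ∈ P, ∀ q ∈ P, p <+: q → p = q
  suf : ∀ p ∈ P, ∀ q ∈ P, p <:+ q → p = q
  com : ∀ w : List B, R ≤ w.length → ∃ p ∈ P, p <+: w

/-- `P⁺` -/
def plus {B : Type} (P : Set (List B)) : Set (List B) :=
  {w | ∃ l : List (List B), l ≠ [] ∧ (∀ p ∈ l, p ∈ P) ∧ w = l.flatten}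

section

variable {B : Type} (P : Set (List B)) (R : ℕ)

/-- states -/
abbrev Q : Type := {q : List B // q.length < R ∧ ∀ p ∈ P, ¬ p <+: q}

variable {P R} (hP : Bif P R)

include hP in
theorem Bif.Rpos : 0 < R := by
  rcases Nat.eq_zero_or_pos R with h | h
  · obtain ⟨p, hp, hp'⟩ := hP.com [] (by simp [h])
    rw [List.prefix_nil] at hp'
    exact absurd (hp' ▸ hp) hP.ne
  · exact h

/-- initial state -/
def q0 : Q P R := ⟨[], hP.Rpos, fun p hp h => hP.ne (by rw [List.prefix_nil] at h; exact h ▸ hp)⟩

include hP in
theorem ext_ok (q : Q P R) (b : B) (h : q.1 ++ [b] ∉ P) :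
    (q.1 ++ [b]).length < R ∧ ∀ p ∈ P, ¬ p <+: (q.1 ++ [b]) := by
  have h1 : ∀ p ∈ P, ¬ p <+: (q.1 ++ [b]) := by
    intro p hp hpre
    rcases List.prefix_concat_iff.1 hpre with h2 | h2
    · exact h (by rw [← h2]; exact hp)
    · exact q.2.2 p hp h2
  refine ⟨?_, h1⟩
  by_contra hlen
  obtain ⟨p, hp, hp'⟩ := hP.com (q.1 ++ [b]) (by omega)
  exact h1 p hp hp'

open Classical in
/-- one step -/
noncomputable def stepQ (q : Q P R) (b : B) : Q P R :=
  if h : q.1 ++ [b] ∈ P then q0 hP else ⟨q.1 ++ [b], ext_ok hP q b h⟩

/-- run -/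
noncomputable def run (q : Q P R) (w : List B) : Q P R := w.foldl (stepQ hP) q

theorem run_nil (q : Q P R) : run hP q [] = q := rfl
theorem run_cons (q : Q P R) (b : B) (w : List B) :
    run hP q (b :: w) = run hP (stepQ hP q b) w := rfl
theorem run_append (q : Q P R) (u v : List B) :
    run hP q (u ++ v) = run hP (run hP q u) v := by
  unfold run; rw [List.foldl_append]

theorem run_decomp (w : List B) : ∀ q : Q P R, ∃ l : List (List B), (∀ p ∈ l, p ∈ P) ∧
    q.1 ++ w = l.flatten ++ (run hP q w).1 := by
  induction w with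
  | nil => intro q; exact ⟨[], by simp, by simp [run_nil]⟩
  | cons b w ih =>
    intro q
    rw [run_cons]
    obtain ⟨l, hl, hl'⟩ := ih (stepQ hP q b)
    by_cases h : q.1 ++ [b] ∈ P
    · have hs : stepQ hP q b = q0 hP := by unfold stepQ; rw [dif_pos h]
      rw [hs] at hl' ⊢
      refine ⟨(q.1 ++ [b]) :: l, ?_, ?_⟩
      · intro p hp
        rcases List.mem_cons.1 hp with rfl | hp
        · exact h
        · exact hl p hp
      · have : (q0 hP : Q P R).1 = [] := rfl
        rw [this, List.nil_append] at hl'
        rw [List.flatten_cons, List.append_assoc, ← hl']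
        simp
    · have hs : (stepQ hP q b).1 = q.1 ++ [b] := by unfold stepQ; rw [dif_neg h]
      refine ⟨l, hl, ?_⟩
      rw [← hl', hs]; simp

theorem run_flatten (l : List (List B)) (hl : ∀ p ∈ l, p ∈ P) :
    run hP (q0 hP) l.flatten = q0 hP := by
  obtain ⟨l', hl', he⟩ := run_decomp hP l.flatten (q0 hP)
  have h0 : (q0 hP : Q P R).1 = [] := rfl
  rw [h0, List.nil_append] at he
  generalize run hP (q0 hP) l.flatten = r at he
  clear h0
  induction l' generalizing l with
  | nil =>
    rw [List.flatten_nil, List.nil_append] at he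
    cases l with
    | nil => apply Subtype.ext; rw [← he]; rfl
    | cons p l =>
      exfalso
      exact r.2.2 p (hl p (by simp)) (by rw [← he, List.flatten_cons]; exact List.prefix_append _ _)
  | cons p' l' ih =>
    cases l with
    | nil =>
      exfalso
      have : p' = [] := by
        rw [List.flatten_nil, List.flatten_cons, List.append_assoc] at he
        exact (List.append_eq_nil_iff.1 he.symm).1
      exact hP.ne (this ▸ hl' p' (by simp))
    | cons p l =>
      have hpp : p = p' := by
        have h1 : p <+: (p' :: l').flatten ++ r.1 := by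
          rw [← he, List.flatten_cons]; exact List.prefix_append _ _
        have h2 : p' <+: (p' :: l').flatten ++ r.1 := by
          rw [List.flatten_cons, List.append_assoc]; exact List.prefix_append _ _
        rcases List.prefix_or_prefix_of_prefix h1 h2 with h | h
        · exact hP.pre _ (hl p (by simp)) _ (hl' p' (by simp)) h
        · exact (hP.pre _ (hl' p' (by simp)) _ (hl p (by simp)) h).symm
      subst hpp
      rw [List.flatten_cons, List.flatten_cons, List.append_assoc] at he
      exact ih l (fun x hx => hl x (by simp [hx])) (fun x hx => hl' x (by simp [hx]))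
        (List.append_cancel_left he)

theorem mem_plus_iff (w : List B) : w ∈ plus P ↔ w ≠ [] ∧ run hP (q0 hP) w = q0 hP := by
  constructor
  · rintro ⟨l, hne, hl, rfl⟩
    refine ⟨?_, run_flatten hP l hl⟩
    intro h
    cases l with
    | nil => exact hne rfl
    | cons p l =>
      have : p = [] := by
        have := congrArg List.length h
        simp at this
        exact this.1
      exact hP.ne (this ▸ hl p (by simp))
  · rintro ⟨hne, hr⟩
    obtain ⟨l, hl, he⟩ := run_decomp hP w (q0 hP)
    have h0 : (q0 hP : Q P R).1 = [] := rfl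
    rw [hr, h0, List.nil_append, List.append_nil] at he
    refine ⟨l, ?_, hl, he⟩
    rintro rfl
    exact hne he

theorem run_suffix (q : Q P R) (w : List B) (hw : R ≤ w.length) : (run hP q w).1 <:+ w := by
  obtain ⟨l, hl, he⟩ := run_decomp hP w q
  have h1 : (run hP q w).1 <:+ q.1 ++ w := by rw [he]; exact List.suffix_append _ _
  have h2 : w <:+ q.1 ++ w := List.suffix_append _ _
  exact List.suffix_of_suffix_length_le h1 h2 (by have := (run hP q w).2.1; omega)

theorem no_merge (x : List B) : ∀ q1 q2 : Q P R, (q1.1 <:+ q2.1 ∨ q2.1 <:+ q1.1) → q1 ≠ q2 →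
    run hP q1 x ≠ run hP q2 x := by
  induction x with
  | nil => intro q1 q2 _ h; exact h
  | cons b x ih =>
    intro q1 q2 hs hne
    rw [run_cons, run_cons]
    have key : ((stepQ hP q1 b).1 <:+ (stepQ hP q2 b).1 ∨ (stepQ hP q2 b).1 <:+ (stepQ hP q1 b).1)
        ∧ stepQ hP q1 b ≠ stepQ hP q2 b := by
      have hne' : q1.1 ≠ q2.1 := fun h => hne (Subtype.ext h)
      have hs' : (q1.1 ++ [b] <:+ q2.1 ++ [b] ∨ q2.1 ++ [b] <:+ q1.1 ++ [b]) := by
        rcases hs with ⟨t, ht⟩ | ⟨t, ht⟩
        · left; exact ⟨t, by rw [← ht]; simp⟩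
        · right; exact ⟨t, by rw [← ht]; simp⟩
      by_cases h1 : q1.1 ++ [b] ∈ P <;> by_cases h2 : q2.1 ++ [b] ∈ P
      · exfalso
        apply hne'
        have : q1.1 ++ [b] = q2.1 ++ [b] := by
          rcases hs' with h | h
          · exact hP.suf _ h1 _ h2 h
          · exact (hP.suf _ h2 _ h1 h).symm
        exact List.append_cancel_right this
      · have e1 : stepQ hP q1 b = q0 hP := by unfold stepQ; rw [dif_pos h1]
        have e2 : (stepQ hP q2 b).1 = q2.1 ++ [b] := by unfold stepQ; rw [dif_neg h2]
        refine ⟨Or.inl ?_, ?_⟩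
        · rw [e1]; exact List.nil_suffix
        · intro h
          have := congrArg Subtype.val h
          rw [e1, e2] at this
          have := congrArg List.length this
          simp [q0] at this
      · have e1 : stepQ hP q2 b = q0 hP := by unfold stepQ; rw [dif_pos h2]
        have e2 : (stepQ hP q1 b).1 = q1.1 ++ [b] := by unfold stepQ; rw [dif_neg h1]
        refine ⟨Or.inr ?_, ?_⟩
        · rw [e1]; exact List.nil_suffix
        · intro h
          have := congrArg Subtype.val h
          rw [e1, e2] at this
          have := congrArg List.length this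
          simp [q0] at this
      · have e1 : (stepQ hP q1 b).1 = q1.1 ++ [b] := by unfold stepQ; rw [dif_neg h1]
        have e2 : (stepQ hP q2 b).1 = q2.1 ++ [b] := by unfold stepQ; rw [dif_neg h2]
        refine ⟨by rw [e1, e2]; exact hs', ?_⟩
        intro h
        have := congrArg Subtype.val h
        rw [e1, e2] at this
        exact hne' (List.append_cancel_right this)
    exact ih _ _ key.1 key.2

/-- the transition semigroup -/
def Sg : Type := {f : Q P R → Q P R // ∃ w : List B, w ≠ [] ∧ f = fun q => run hP q w}

noncomputable instance : Semigroup (Sg hP) where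
  mul f g := ⟨fun q => g.1 (f.1 q), by
    obtain ⟨u, hu, hu'⟩ := f.2
    obtain ⟨v, hv, hv'⟩ := g.2
    refine ⟨u ++ v, by simp [hu], ?_⟩
    funext q
    rw [hu', hv', run_append]⟩
  mul_assoc f g h := rfl

theorem Sg_mul (f g : Sg hP) (q : Q P R) : (f * g).1 q = g.1 (f.1 q) := rfl

instance finQ [Finite B] : Finite (Q P R) := by
  have : ({q : List B | q.length < R}).Finite := List.finite_length_lt B R
  have h2 : Finite {q : List B // q.length < R} := this
  exact Finite.of_injective (fun q : Q P R => (⟨q.1, q.2.1⟩ : {q : List B // q.length < R}))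
    (fun a b h => Subtype.ext (by simpa using h))

instance finSg [Finite B] : Finite (Sg hP) := by
  unfold Sg
  infer_instance

/-- element of a word -/
noncomputable def el (w : List B) (hw : w ≠ []) : Sg hP := ⟨fun q => run hP q w, w, hw, rfl⟩

theorem iter_run (w : List B) (n : ℕ) (q : Q P R) :
    run hP q (List.replicate n w).flatten = (fun q => run hP q w)^[n] q := by
  induction n generalizing q with
  | zero => rfl
  | succ n ih =>
    rw [List.replicate_succ, List.flatten_cons, run_append, ih, Function.iterate_succ_apply]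

theorem local_group [Finite B] (e : Sg hP) (he : e * e = e) (x : Sg hP) :
    ∃ y : Sg hP, (e * x * e) * (e * y * e) = e ∧ (e * y * e) * (e * x * e) = e := by
  classical
  obtain ⟨f, w, hw, rfl⟩ := e
  obtain ⟨g, x', hx', rfl⟩ := x
  have hidem : ∀ q, run hP (run hP q w) w = run hP q w := by
    intro q
    have := congrArg (fun s : Sg hP => s.1 q) he
    exact this
  set E : Q P R → Q P R := fun q => run hP q w with hE
  set F : Q P R → Q P R := fun q => run hP (run hP (run hP q w) x') w with hF
  have FE : ∀ q, F (E q) = F q := by intro q; simp only [hF, hE, hidem]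
  have EF : ∀ q, E (F q) = F q := by intro q; simp only [hF, hE, hidem]
  have EE : ∀ q, E (E q) = E q := by intro q; simp only [hE, hidem]
  -- fixed points of E are suffixes of a power of w
  have hsuf : ∀ q, E q = q → q.1 <:+ (List.replicate R w).flatten := by
    intro q hq
    have h1 : ∀ n, E^[n] q = q := by
      intro n
      induction n with
      | zero => rfl
      | succ n ih => rw [Function.iterate_succ_apply, hq, ih]
    have h2 : run hP q (List.replicate R w).flatten = q := by rw [iter_run]; exact h1 R
    have h3 : R ≤ ((List.replicate R w).flatten).length := by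
      rw [List.length_flatten]
      simp
      have : 1 ≤ w.length := List.length_pos_iff.2 hw
      nlinarith
    have := run_suffix hP q _ h3
    rw [h2] at this
    exact this
  have hinj : ∀ q1 q2, E q1 = q1 → E q2 = q2 → F q1 = F q2 → q1 = q2 := by
    intro q1 q2 h1 h2 h
    by_contra hne
    have hs := List.suffix_or_suffix_of_suffix (hsuf q1 h1) (hsuf q2 h2)
    have := no_merge hP (w ++ x' ++ w) q1 q2 hs hne
    rw [run_append, run_append, run_append, run_append] at this
    exact this h
  -- F restricted to the fixed points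
  let I := {q : Q P R // E q = q}
  let FI : I → I := fun q => ⟨F q.1, EF q.1⟩
  have hFI : Function.Injective FI := by
    intro a b h
    exact Subtype.ext (hinj _ _ a.2 b.2 (congrArg Subtype.val h))
  have : Finite I := inferInstance
  have hbij : Function.Bijective FI := Finite.injective_iff_bijective.1 hFI
  let pe : Equiv.Perm I := Equiv.ofBijective FI hbij
  obtain ⟨m, hm, hpm⟩ := isOfFinOrder_iff_pow_eq_one.1 (isOfFinOrder_of_finite pe)
  have hiter : ∀ n (q : I), (F^[n] q.1) = ((pe ^ n) q).1 := by
    intro n
    induction n with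
    | zero => intro q; rfl
    | succ n ih =>
      intro q
      rw [Function.iterate_succ_apply, pow_succ, Equiv.Perm.mul_apply]
      exact ih (FI q)
  have hFm : ∀ q, F^[m] q = E q := by
    intro q
    obtain ⟨k, rfl⟩ : ∃ k, m = k + 1 := ⟨m - 1, by omega⟩
    have h1 : F^[k+1] q = F^[k+1] (E q) := by
      rw [Function.iterate_succ_apply, Function.iterate_succ_apply, FE]
    rw [h1]
    have := hiter (k+1) ⟨E q, EE q⟩
    rw [this, hpm]; rfl
  have hEit : ∀ n q, E (F^[n+1] q) = F^[n+1] q := by
    intro n q; rw [Function.iterate_succ_apply', EF]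
  have hF2m : ∀ q, F^[2*m] q = E q := by
    intro q
    rw [two_mul, Function.iterate_add_apply, hFm]
    obtain ⟨k, rfl⟩ : ∃ k, m = k + 1 := ⟨m - 1, by omega⟩
    rw [hFm, EE]
  -- the inverse
  let W := w ++ x' ++ w
  have hW : (fun q => run hP q W) = F := by
    funext q; simp only [W, hF, run_append]
  let z := (List.replicate (2*m-1) W).flatten
  have hz : ∀ q, run hP q z = F^[2*m-1] q := by
    intro q
    simp only [z, iter_run, hW]
  have hzne : z ≠ [] := by
    intro h
    have : (z.length) = 0 := by rw [h]; rfl
    simp only [z, W, List.length_flatten, List.map_replicate, List.sum_replicate, smul_eq_mul,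
      List.length_append] at this
    have h1 : 1 ≤ w.length := List.length_pos_iff.2 hw
    have h2 : 1 ≤ 2*m-1 := by omega
    nlinarith
  refine ⟨el hP z hzne, ?_, ?_⟩
  · apply Subtype.ext
    funext q
    simp only [Sg_mul, el, hz]
    change E (F^[2*m-1] (E (F q))) = E q
    rw [EF]
    obtain ⟨k, hk⟩ : ∃ k, 2*m-1 = k + 1 := ⟨2*m-2, by omega⟩
    rw [hk, hEit, ← hF2m q]
    have : 2 * m = (k+1) + 1 := by omega
    rw [this, Function.iterate_succ_apply F (k+1)]
  · apply Subtype.ext
    funext q
    simp only [Sg_mul, el, hz]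
    change F (E (F^[2*m-1] (E q))) = E q
    obtain ⟨k, hk⟩ : ∃ k, 2*m-1 = k + 1 := ⟨2*m-2, by omega⟩
    rw [hk, hEit]
    have h1 : F^[k+1] (E q) = F^[k+1] q := by
      rw [Function.iterate_succ_apply, Function.iterate_succ_apply, FE]
    rw [h1, ← Function.iterate_succ_apply' F (k+1), ← hF2m q]
    have : 2 * m = (k+1) + 1 := by omega
    rw [this]

end

/-- recognition statement in the format of the frozen statement, over `Fin k`. -/
theorem recognized {B : Type} [Finite B] {P : Set (List B)} {R : ℕ} (hP : Bif P R)
    {k : ℕ} (f : Fin k → B) (hf : Function.Injective f) (hs : Function.Surjective f) :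
    ∃ (S : Type) (_ : Semigroup S) (_ : Finite S),
      (∀ e : S, e * e = e → ∀ x : S, ∃ y : S,
          (e * x * e) * (e * y * e) = e ∧ (e * y * e) * (e * x * e) = e) ∧
      ∃ φ : List (Fin k) → S,
        (∀ u v : List (Fin k), u ≠ [] → v ≠ [] → φ (u ++ v) = φ u * φ v) ∧
        ∃ X : Set S, {w : List (Fin k) | w.map f ∈ plus P} = {w | w ≠ [] ∧ φ w ∈ X} := by
  classical
  by_cases hB : Nonempty B
  · obtain ⟨b⟩ := hB
    refine ⟨Sg hP, inferInstance, inferInstance, local_group hP,
      fun w => if h : w.map f ≠ [] then el hP (w.map f) h else el hP [b] (by simp), ?_,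
      {s | s.1 (q0 hP) = q0 hP}, ?_⟩
    · intro u v hu hv
      have h1 : (u ++ v).map f ≠ [] := by simp [hu]
      have h2 : u.map f ≠ [] := by simp [hu]
      have h3 : v.map f ≠ [] := by simp [hv]
      beta_reduce
      rw [dif_pos h1, dif_pos h2, dif_pos h3]
      apply Subtype.ext
      funext q
      simp only [el, List.map_append, run_append]
      rfl
    · ext w
      simp only [Set.mem_ofPred_eq]
      rw [mem_plus_iff hP]
      constructor
      · rintro ⟨h1, h2⟩
        refine ⟨fun h => h1 (by simp [h]), ?_⟩
        rw [dif_pos h1]; exact h2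
      · rintro ⟨h1, h2⟩
        have h3 : w.map f ≠ [] := by simp [h1]
        rw [dif_pos h3] at h2
        exact ⟨h3, h2⟩
  · -- no letters: impossible, completeness fails unless R is large; words are empty
    refine ⟨PUnit, inferInstance, inferInstance, fun e _ x => ⟨x, rfl, rfl⟩, fun _ => PUnit.unit,
      fun _ _ _ _ => rfl, ∅, ?_⟩
    ext w
    simp only [Set.mem_ofPred_eq, Set.mem_empty_iff_false, and_false, iff_false]
    rw [mem_plus_iff hP]
    rintro ⟨h1, _⟩
    cases w with
    | nil => exact h1 rfl
    | cons a w => exact hB ⟨f a⟩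

end Pool.Agent.R544.LG
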