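import Pool.Agent.R544.LG.Flight

set_option autoImplicit false

/-! Which slices lie in `P⁺`. -/

namespace Pool.Agent.R544.LG

theorem plus_append {B : Type} (P : Set (List B)) (a b : List B) (ha : a ∈ plus P) (hb : b ∈ plus P) :
    a ++ b ∈ plus P := by
  obtain ⟨l, h1, h2, rfl⟩ := ha
  obtain ⟨l', h1', h2', rfl⟩ := hb
  refine ⟨l ++ l', by simp [h1], ?_, by rw [List.flatten_append]⟩
  intro q hq
  rcases List.mem_append.1 hq with h | h
  · exact h2 q h
  · exact h2' q h

section

variable {L : Type} {N : ℕ} {U M G : Type} [Fintype U] [Group G] [AddCommGroup M]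
  [DistribMulAction G M] (g : (Fin N → L) → (Fin N → L) → G)
  (sch : ℕ → Stp (Fin N → L) U M) (J : ℕ) (hJ : 0 < J) (p : Fin N → L)

variable (hN : 0 < N)
variable (hper : ∀ t, sch t = sch (t % J))
variable (hkill : ∀ (t : ℕ) (x : (Fin N → L) × U × M) (bs : List (Fin N → L)), 2 * J ≤ bs.length →
        ∃ i, 1 ≤ i ∧ i ≤ 2 * J ∧ (adv g sch t x (bs.take i)).2.2 = 0)

include hN in
theorem K_lt_fl {bs : List (Fin N → L)} (h : bs ≠ []) :
    KK J U < (Phi (KK J U) (fl bs)).length := by
  rw [length_Phi]
  have := Nat.le_mul_of_pos_left (KK J U + 1) (List.length_pos_iff.2 (fl_ne hN h))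
  omega

omit [Fintype U] in
theorem adv_split (t : ℕ) (u ua : U) (a b : List (Fin N → L))
    (h : (adv g sch t (p, u, 0) a).2 = (ua, 0)) :
    (adv g sch t (p, u, 0) (a ++ b)).2 = (adv g sch (t + a.length) (p, ua, 0) b).2 := by
  rw [adv_append]
  have : adv g sch t (p, u, 0) a = ((adv g sch t (p, u, 0) a).1, ua, 0) := by
    rw [← h]
  rw [this]
  exact adv_zero g sch b _ _ _ _

include hN in
theorem slf_split (t : ℕ) (u ua : U) (a b bs2 : List (Fin N → L)) (ha : a ≠ []) (hb : b ≠ [])
    (h : (adv g sch t (p, u, 0) a).2 = (ua, 0)) :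
    slf g sch J hJ p t u (a ++ b) bs2 =
      slf g sch J hJ p t u a (b ++ bs2) ++ slf g sch J hJ p (t + a.length) ua b bs2 := by
  have h0 : a ++ b ≠ [] := by simp [ha]
  rw [slf_eq g sch J hJ p hN t u (a ++ b) bs2 h0, slf_eq g sch J hJ p hN t u a _ ha,
    slf_eq g sch J hJ p hN _ ua b bs2 hb]
  have h1 : (adv g sch t (p, u, 0) a).2.1 = ua := by rw [h]
  have h2 : (adv g sch t (p, u, 0) (a ++ b)).2.1 = (adv g sch (t + a.length) (p, ua, 0) b).2.1 := by
    rw [adv_split g sch p t u ua a b h]
  rw [h1, h2]
  have hs := cut_le J hJ t u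
  have hs1 := cut_le J hJ (t + a.length) ua
  have hla := K_lt_fl (U := U) J hN ha
  have hlb := K_lt_fl (U := U) J hN hb
  rw [fl_append, Phi_append, List.drop_append_of_le_length (by omega)]
  rw [fl_append, Phi_append, List.take_append_of_le_length (by omega)]
  have h3 : t + (a ++ b).length = t + a.length + b.length := by
    rw [List.length_append]; omega
  rw [h3]
  conv_lhs => rw [← List.take_append_drop (cut J hJ (t + a.length) ua) (Phi (KK J U) (fl b))]
  simp only [List.append_assoc]

include hN in
theorem mem_plus_of_run : ∀ (n : ℕ) (bs : List (Fin N → L)), bs.length ≤ n → bs ≠ [] →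
    ∀ (t : ℕ) (u : U) (bs2 : List (Fin N → L)), bs2 ≠ [] →
    (adv g sch t (p, u, 0) bs).2.2 = 0 →
    slf g sch J hJ p t u bs bs2 ∈ plus (PP g sch J hJ p) := by
  intro n
  induction n with
  | zero =>
    intro bs h1 h2
    exact absurd (List.length_eq_zero_iff.1 (by omega)) h2
  | succ n ih =>
    intro bs hlen hbs t u bs2 hbs2 hz
    by_cases hFR : FR g sch p t u bs
    · refine ⟨[slf g sch J hJ p t u bs bs2], by simp, ?_, by simp⟩
      intro q hq
      rw [List.mem_singleton] at hq
      subst hq
      exact YY_sub g sch J hJ p ⟨t, u, bs, bs2, hbs, hbs2, hFR, rfl⟩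
    · unfold FR at hFR
      push Not at hFR
      obtain ⟨i, hi1, hi2, hi3⟩ := hFR hz
      have ha : bs.take i ≠ [] := by
        intro h
        have := congrArg List.length h
        rw [List.length_take, List.length_nil] at this
        omega
      have hb : bs.drop i ≠ [] := by
        intro h
        have := congrArg List.length h
        rw [List.length_drop, List.length_nil] at this
        omega
      have hsp : bs.take i ++ bs.drop i = bs := List.take_append_drop _ _
      have h1 : (adv g sch t (p, u, 0) (bs.take i)).2 =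
          ((adv g sch t (p, u, 0) (bs.take i)).2.1, 0) := Prod.ext rfl hi3
      rw [← hsp, slf_split g sch J hJ p hN t u _ _ _ bs2 ha hb h1]
      apply plus_append
      · apply ih _ _ ha _ _ _ (by simp [hb]) hi3
        rw [List.length_take]; omega
      · apply ih _ _ hb _ _ _ hbs2
        · have := adv_split g sch p t u _ _ (bs.drop i) h1
          rw [← this, hsp]; exact hz
        · rw [List.length_drop]; omega

include hN hper hkill in
theorem run_of_mem : ∀ (l : List (List (L × Fin (KK J U + 1)))), (∀ q ∈ l, q ∈ PP g sch J hJ p) →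
    ∀ (t : ℕ) (u : U) (bs : List (Fin N → L)),
    l.flatten <+: (Phi (KK J U) (fl bs)).drop (cut J hJ t u) →
    ∃ r, (adv g sch t (p, u, 0) (bs.take r)).2.2 = 0 ∧ r ≤ bs.length ∧
      l.flatten.length + cut J hJ t u =
        r * N * (KK J U + 1) + cut J hJ (t + r) (adv g sch t (p, u, 0) (bs.take r)).2.1 := by
  intro l
  induction l with
  | nil =>
    intro _ t u bs _
    refine ⟨0, rfl, Nat.zero_le _, ?_⟩
    simp [adv]
  | cons q l ih =>
    intro hl t u bs hpre
    have hP := PP_bif g sch J hJ p hN hper hkill
    have hq : q ∈ PP g sch J hJ p := hl q (by simp)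
    have hqne : q ≠ [] := fun h => hP.ne (h ▸ hq)
    set bp := bs ++ List.replicate (2*J+1) p with hbp
    have hbpl : bp.length = bs.length + (2*J+1) := by rw [hbp]; simp
    have hpre' : (q :: l).flatten <+: (Phi (KK J U) (fl bp)).drop (cut J hJ t u) := by
      apply hpre.trans
      apply List.IsPrefix.drop
      rw [hbp, fl_append, Phi_append]
      exact List.prefix_append _ _
    -- first return
    obtain ⟨i0, hi01, hi02, hi03⟩ := hkill t (p, u, 0) bp (by omega)
    have hex : ∃ i, 1 ≤ i ∧ (adv g sch t (p, u, 0) (bp.take i)).2.2 = 0 := ⟨i0, hi01, hi03⟩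
    classical
    set i := Nat.find hex with hi
    obtain ⟨hi1, hi3⟩ := Nat.find_spec hex
    rw [← hi] at hi1 hi3
    have hi2 : i ≤ 2 * J := (Nat.find_min' hex ⟨hi01, hi03⟩).trans hi02
    have hmin : ∀ k, k < i → 1 ≤ k → (adv g sch t (p, u, 0) (bp.take k)).2.2 ≠ 0 := by
      intro k hk hk1 hk2
      exact Nat.find_min hex hk ⟨hk1, hk2⟩
    set a := bp.take i with ha'
    set b := bp.drop i with hb'
    have hal : a.length = i := by rw [ha', List.length_take]; omega
    have hab : a ++ b = bp := List.take_append_drop _ _
    have ha : a ≠ [] := by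
      intro h
      rw [h, List.length_nil] at hal; omega
    have hb : b ≠ [] := by
      intro h
      have := congrArg List.length h
      rw [hb', List.length_drop, List.length_nil] at this
      omega
    have hFR : FR g sch p t u a := by
      refine ⟨hi3, ?_⟩
      intro k hk1 hk2
      rw [hal] at hk2
      have : a.take k = bp.take k := by rw [ha', List.take_take, Nat.min_eq_left (by omega)]
      rw [this]
      exact hmin k hk2 hk1
    set u1 := (adv g sch t (p, u, 0) a).2.1 with hu1
    have hstate : (adv g sch t (p, u, 0) a).2 = (u1, 0) := Prod.ext rfl hi3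
    set y := slf g sch J hJ p t u a b with hy
    have hyY : y ∈ PP g sch J hJ p := YY_sub g sch J hJ p ⟨t, u, a, b, ha, hb, hFR, rfl⟩
    have hflab : fl a ++ fl b = fl bp := by rw [← fl_append, hab]
    have hypre : y <+: (Phi (KK J U) (fl bp)).drop (cut J hJ t u) := by
      rw [hy]
      unfold slf sl
      rw [hflab]
      exact List.IsPrefix.drop (List.take_prefix _ _) _
    have hqpre : q <+: (Phi (KK J U) (fl bp)).drop (cut J hJ t u) := by
      refine (List.prefix_append q l.flatten).trans ?_
      rw [← List.flatten_cons]; exact hpre'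
    have hqy : q = y := by
      rcases List.prefix_or_prefix_of_prefix hqpre hypre with h | h
      · exact hP.pre _ hq _ hyY h
      · exact (hP.pre _ hyY _ hq h).symm
    have hylen := slf_len g sch J hJ p hN t u a b ha hb
    rw [← hy, ← hu1, hal] at hylen
    have hfal : (fl a).length = i * N := by rw [length_fl, hal]
    -- the rest
    have hrest : l.flatten <+: (Phi (KK J U) (fl b)).drop (cut J hJ (t + i) u1) := by
      have h1 : (Phi (KK J U) (fl bp)).drop (cut J hJ t u) =
          y ++ (Phi (KK J U) (fl b)).drop (cut J hJ (t + i) u1) := by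
        obtain ⟨Z, hZ⟩ := hypre
        rw [← hZ]
        congr 1
        have h2 : Z = ((Phi (KK J U) (fl bp)).drop (cut J hJ t u)).drop y.length := by
          rw [← hZ]; simp
        rw [h2, List.drop_drop, ← hflab, Phi_append]
        have h3 : cut J hJ t u + y.length = (Phi (KK J U) (fl a)).length + cut J hJ (t+i) u1 := by
          rw [length_Phi]; omega
        rw [h3, List.drop_length_add_append]
      rw [List.flatten_cons, h1, hqy] at hpre'
      exact (List.prefix_append_right_inj y).1 hpre'
    obtain ⟨r', hr1, hr2, hr3⟩ := ih (fun q' hq' => hl q' (by simp [hq'])) (t + i) u1 b hrest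
    -- total length
    have htot : (q :: l).flatten.length + cut J hJ t u = (i + r') * N * (KK J U + 1) +
        cut J hJ (t + i + r') (adv g sch (t + i) (p, u1, 0) (b.take r')).2.1 := by
      rw [List.flatten_cons, List.length_append, hqy]
      have : (i + r') * N * (KK J U + 1) = (fl a).length * (KK J U + 1) + r' * N * (KK J U + 1) := by
        rw [hfal]; ring
      rw [this]; omega
    have hcutpos := cut_pos (J := J) hJ (t + i + r') (adv g sch (t + i) (p, u1, 0) (b.take r')).2.1
    have hrle : i + r' < bs.length := by
      have h1 := hpre.length_le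
      rw [List.length_drop, length_Phi, length_fl] at h1
      have h2 : 0 < (q :: l).flatten.length := by
        rw [List.flatten_cons, List.length_append]
        have := List.length_pos_iff.2 hqne; omega
      have h3 : (i + r') * N * (KK J U + 1) < bs.length * N * (KK J U + 1) := by omega
      by_contra hcon
      have : bs.length * N * (KK J U + 1) ≤ (i + r') * N * (KK J U + 1) :=
        Nat.mul_le_mul_right _ (Nat.mul_le_mul_right _ (by omega))
      omega
    have htake : bs.take (i + r') = a ++ b.take r' := by
      have h1 : bp.take (i + r') = bs.take (i + r') := by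
        rw [hbp, List.take_append_of_le_length (by omega)]
      rw [← h1, ← hab]
      have : i + r' = a.length + r' := by rw [hal]
      rw [this, List.take_length_add_append]
    have hadv : (adv g sch t (p, u, 0) (bs.take (i + r'))).2 =
        (adv g sch (t + i) (p, u1, 0) (b.take r')).2 := by
      rw [htake, adv_split g sch p t u u1 a _ hstate, hal]
    refine ⟨i + r', ?_, by omega, ?_⟩
    · rw [hadv]; exact hr1
    · rw [hadv, ← add_assoc t i r']; exact htot

end

end Pool.Agent.R544.LG
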