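import Mathlib

set_option autoImplicit false

/-! The killing scheme: labels `(previous block, register, v)`; every label meets `v = 0` within
bounded time, whatever the blocks are. -/

namespace Pool.Agent.R544.LG

/-- one step of the schedule -/
structure Stp (A U M : Type) where
  σ : A → Equiv.Perm U
  l : A → U → M

section

variable {A U M G : Type} [Group G] [AddCommGroup M] [DistribMulAction G M] (g : A → A → G)

def one (s : Stp A U M) (x : A × U × M) (V : A) : A × U × M :=
  (V, s.σ V x.2.1, g x.1 V • x.2.2 + s.l V x.2.1)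

def adv (sch : ℕ → Stp A U M) : ℕ → A × U × M → List A → A × U × M
  | _, x, [] => x
  | t, x, V :: bs => adv sch (t+1) (one g (sch t) x V) bs

def hits (sch : ℕ → Stp A U M) : ℕ → A × U × M → List A → Prop
  | _, x, [] => x.2.2 = 0
  | t, x, V :: bs => x.2.2 = 0 ∨ hits sch (t+1) (one g (sch t) x V) bs

variable (sch : ℕ → Stp A U M)

theorem adv_append (a b : List A) : ∀ (t : ℕ) (x : A × U × M),
    adv g sch t x (a ++ b) = adv g sch (t + a.length) (adv g sch t x a) b := by
  induction a with
  | nil => intro t x; rfl
  | cons V a ih =>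
    intro t x
    rw [List.cons_append, adv, adv, ih, List.length_cons]
    congr 1
    omega

theorem hits_of_zero (bs : List A) (t : ℕ) (x : A × U × M) (h : x.2.2 = 0) :
    hits g sch t x bs := by
  cases bs with
  | nil => exact h
  | cons V bs => exact Or.inl h

theorem hits_append (a b : List A) : ∀ (t : ℕ) (x : A × U × M),
    hits g sch t x (a ++ b) ↔
      hits g sch t x a ∨ hits g sch (t + a.length) (adv g sch t x a) b := by
  induction a with
  | nil =>
    intro t x
    simp only [List.nil_append, hits, adv, List.length_nil, Nat.add_zero]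
    constructor
    · exact Or.inr
    · rintro (h | h)
      · exact hits_of_zero g sch b t x h
      · exact h
  | cons V a ih =>
    intro t x
    rw [List.cons_append, hits, hits, adv, ih, List.length_cons, or_assoc]
    have : t + 1 + a.length = t + (a.length + 1) := by omega
    rw [this]

theorem hits_iff (bs : List A) : ∀ (t : ℕ) (x : A × U × M), hits g sch t x bs →
    ∃ i, i ≤ bs.length ∧ (adv g sch t x (bs.take i)).2.2 = 0 := by
  induction bs with
  | nil => intro t x h; exact ⟨0, le_refl _, h⟩
  | cons V bs ih =>
    rintro t x (h | h)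
    · exact ⟨0, by simp, h⟩
    · obtain ⟨i, hi, hi'⟩ := ih _ _ h
      exact ⟨i+1, by simpa using hi, by simpa [adv] using hi'⟩

/-- product of the window elements -/
def PG : List A → G
  | [] => 1
  | [_] => 1
  | a :: b :: L => PG (b :: L) * g a b

theorem PG_concat (L : List A) : ∀ (a b : A), PG g (a :: L ++ [b]) =
    g ((a :: L).getLast (by simp)) b * PG g (a :: L) := by
  induction L with
  | nil => intro a b; simp [PG]
  | cons c L ih =>
    intro a b
    have h1 : a :: c :: L ++ [b] = a :: (c :: (L ++ [b])) := rfl
    rw [h1, PG]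
    have h2 := ih c b
    rw [List.cons_append] at h2
    have h3 : (a :: c :: L).getLast (by simp) = (c :: L).getLast (by simp) :=
      List.getLast_cons (by simp)
    rw [h2, PG, mul_assoc, h3]

end

section scheme

open Classical

variable {A M G : Type} [Group G] [AddCommGroup M] [DistribMulAction G M] (g : A → A → G)
variable (star : A) (κ m : ℕ) (E : ℕ → M)

/-- registers -/
abbrev Reg (A : Type) (κ m : ℕ) : Type := Fin (m+1) → Fin κ → A

/-- read a cell -/
noncomputable def get (u : Reg A κ m) (i j : ℕ) : A :=
  if h : i < m + 1 ∧ j < κ then u ⟨i, h.1⟩ ⟨j, h.2⟩ else star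

/-- apply a permutation to a cell -/
noncomputable def upd (i j : ℕ) (p : Equiv.Perm A) : Equiv.Perm (Reg A κ m) :=
  Equiv.piCongrRight (fun a => Equiv.piCongrRight (fun b =>
    if a.1 = i ∧ b.1 = j then p else Equiv.refl A))

theorem get_upd (i j : ℕ) (p : Equiv.Perm A) (u : Reg A κ m) (a b : ℕ) (ha : a < m + 1) (hb : b < κ) :
    get star κ m (upd κ m i j p u) a b =
      if a = i ∧ b = j then p (get star κ m u a b) else get star κ m u a b := by
  unfold get upd
  rw [dif_pos ⟨ha, hb⟩, dif_pos ⟨ha, hb⟩]
  simp only [Equiv.piCongrRight_apply, Pi.map_apply]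
  split_ifs <;> simp_all

/-- the cells `(i, j), …, (i, κ-1)` -/
noncomputable def cellsFrom (u : Reg A κ m) (i j : ℕ) : List A :=
  (List.range' j (κ - j)).map (get star κ m u i)

/-- guessing step -/
noncomputable def nstep (i j : ℕ) : Stp A (Reg A κ m) M where
  σ V := upd κ m i j (Equiv.swap V star)
  l V u := - ((PG g (V :: cellsFrom star κ m u i (j+1)))⁻¹ • (E (j+1) - E j))

/-- recording step -/
noncomputable def pstep (w : Equiv.Perm (Reg A κ m)) (j : ℕ) : Stp A (Reg A κ m) M where
  σ V := if j = 0 then w.trans (upd κ m 0 0 (Equiv.swap V star)) else upd κ m 0 j (Equiv.swap V star)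
  l V u := - (PG g ((List.range j).map (get star κ m u 0) ++ [V]) • (E (j+1) - E j))

noncomputable def stp (w : Equiv.Perm (Reg A κ m)) (i j : ℕ) : Stp A (Reg A κ m) M :=
  if i ≤ m then nstep g star κ m E i j else pstep g star κ m E w j

variable (hE : ∀ w : M, ∃ k, k ≤ κ ∧ E k = w) (hE0 : E 0 = 0)

variable (sch : ℕ → Stp A (Reg A κ m) M)

/-- guessing round: correct guesses -/
theorem guess_ok (i : ℕ) (hi : i < m + 1) (w : M) : ∀ (L : List A) (j t : ℕ) (x : A × Reg A κ m × M),
    j + L.length = κ →
    (∀ j', j ≤ j' → j' < κ → sch (t + (j' - j)) = nstep g star κ m E i j') →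
    cellsFrom star κ m x.2.1 i j = L →
    PG g (x.1 :: L) • x.2.2 = w - E j →
    (∃ k, j ≤ k ∧ k ≤ κ ∧ E k = w) →
    hits g sch t x L := by
  intro L
  induction L with
  | nil =>
    intro j t x hj _ _ hv ⟨k, hk1, hk2, hk3⟩
    have : k = j := by simp at hj; omega
    subst this
    simp only [hits]
    simpa [PG, hk3] using hv
  | cons V L ih =>
    intro j t x hj hs hc hv ⟨k, hk1, hk2, hk3⟩
    simp only [hits]
    rcases Nat.eq_or_lt_of_le hk1 with h | h
    · left
      subst h
      rw [hk3, sub_self] at hv
      exact (smul_eq_zero_iff_eq _).1 hv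
    · right
      have hjk : j < κ := by simp at hj; omega
      have hcells : get star κ m x.2.1 i j = V ∧ cellsFrom star κ m x.2.1 i (j+1) = L := by
        unfold cellsFrom at hc ⊢
        have : κ - j = (κ - (j+1)) + 1 := by omega
        rw [this, List.range'_succ, List.map_cons] at hc
        exact List.cons.inj hc
      have hst : sch t = nstep g star κ m E i j := by
        have := hs j (le_refl _) hjk
        simpa using this
      apply ih (j+1)
      · simp at hj; omega
      · intro j' h1 h2
        have := hs j' (by omega) h2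
        rw [← this]; congr 1; omega
      · rw [hst]
        simp only [one, nstep]
        rw [← hcells.2]
        unfold cellsFrom
        apply List.map_congr_left
        intro b hb
        rw [List.mem_range'_1] at hb
        rw [get_upd star κ m _ _ _ _ _ _ hi (by omega), if_neg (by omega)]
      · rw [hst]
        simp only [one, nstep]
        rw [hcells.2, smul_add, smul_neg, smul_smul, smul_smul, mul_inv_cancel, one_smul]
        rw [PG] at hv
        rw [hv]; abel
      · exact ⟨k, by omega, hk2, hk3⟩

/-- guessing round: effect on the register -/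
theorem round_reg (i : ℕ) (hi : i < m + 1) : ∀ (L : List A) (j t : ℕ) (x : A × Reg A κ m × M),
    j + L.length ≤ κ →
    (∀ j', j ≤ j' → j' < κ → sch (t + (j' - j)) = nstep g star κ m E i j') →
    ∀ a b, a < m + 1 → b < κ → get star κ m (adv g sch t x L).2.1 a b =
      if h : a = i ∧ j ≤ b ∧ b < j + L.length then
        Equiv.swap (L[b - j]'(by omega)) star (get star κ m x.2.1 a b)
      else get star κ m x.2.1 a b := by
  intro L
  induction L with
  | nil => intro j t x _ _ a b ha hb; simp [adv]
  | cons V L ih =>
    intro j t x hj hs a b ha hb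
    have hjk : j < κ := by simp at hj; omega
    have hst : sch t = nstep g star κ m E i j := by
      have := hs j (le_refl _) hjk
      simpa using this
    rw [adv, ih (j+1) (t+1) _ (by simp at hj; omega) (by
      intro j' h1 h2
      have := hs j' (by omega) h2
      rw [← this]; congr 1; omega) a b ha hb]
    have h0 : get star κ m (one g (sch t) x V).2.1 a b =
        if a = i ∧ b = j then Equiv.swap V star (get star κ m x.2.1 a b)
        else get star κ m x.2.1 a b := by
      rw [hst]
      simp only [one, nstep]
      rw [get_upd star κ m _ _ _ _ _ _ ha hb]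
    rw [h0]
    by_cases h1 : a = i ∧ b = j
    · have h2 : ¬ (a = i ∧ j + 1 ≤ b ∧ b < j + 1 + L.length) := by omega
      have h3 : a = i ∧ j ≤ b ∧ b < j + (V :: L).length := by simp; omega
      rw [dif_neg h2, dif_pos h3, if_pos h1]
      have h4 : b - j = 0 := by omega
      simp [h4]
    · rw [if_neg h1]
      by_cases h2 : a = i ∧ j + 1 ≤ b ∧ b < j + 1 + L.length
      · have h3 : a = i ∧ j ≤ b ∧ b < j + (V :: L).length := by simp; omega
        rw [dif_pos h2, dif_pos h3]
        have h4 : b - j = (b - (j+1)) + 1 := by omega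
        simp [h4]
      · have h3 : ¬ (a = i ∧ j ≤ b ∧ b < j + (V :: L).length) := by simp; omega
        rw [dif_neg h2, dif_neg h3]

include hE hE0 in
/-- one guessing round -/
theorem round (i : ℕ) (hi : i < m + 1) (L : List A) (t : ℕ) (x : A × Reg A κ m × M)
    (hL : L.length = κ) (hs : ∀ j', j' < κ → sch (t + j') = nstep g star κ m E i j') :
    hits g sch t x L ∨
      ((∃ b, b < κ ∧ get star κ m (adv g sch t x L).2.1 i b ≠ star) ∧
        ∀ a b, a < m + 1 → b < κ → a ≠ i →
          get star κ m (adv g sch t x L).2.1 a b = get star κ m x.2.1 a b) := by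
  have hreg := round_reg g star κ m E sch i hi L 0 t x (by omega)
    (by intro j' _ h; simpa using hs j' h)
  by_cases hc : cellsFrom star κ m x.2.1 i 0 = L
  · left
    obtain ⟨k, hk, hk'⟩ := hE (PG g (x.1 :: L) • x.2.2)
    exact guess_ok g star κ m E sch i hi (PG g (x.1 :: L) • x.2.2) L 0 t x (by omega)
      (by intro j' _ h; simpa using hs j' h) hc (by rw [hE0, sub_zero]) ⟨k, by omega, hk, hk'⟩
  · right
    constructor
    · have hex : ∃ b, ∃ h : b < κ, get star κ m x.2.1 i b ≠ L[b]'(by omega) := by
        by_contra hcon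
        push Not at hcon
        apply hc
        apply List.ext_getElem
        · simp [cellsFrom, hL]
        · intro b h1 h2
          simp only [cellsFrom, List.getElem_map, List.getElem_range']
          have := hcon b (by omega)
          simpa using this
      obtain ⟨b, hb, hb'⟩ := hex
      refine ⟨b, hb, ?_⟩
      rw [hreg i b hi hb, dif_pos ⟨rfl, by omega, by omega⟩]
      intro h
      apply hb'
      have h1 : Equiv.swap (L[b - 0]'(by omega)) star (L[b-0]'(by omega)) = star :=
        Equiv.swap_apply_left _ _
      have := (Equiv.swap (L[b - 0]'(by omega)) star).injective (h.trans h1.symm)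
      simpa using this
    · intro a b ha hb hne
      rw [hreg a b ha hb, dif_neg (by omega)]

include hE hE0 in
/-- all guessing rounds -/
theorem rounds (t : ℕ) (hs : ∀ i j, i < m + 1 → j < κ → sch (t + i * κ + j) = nstep g star κ m E i j) :
    ∀ (r : ℕ) (L : List A) (x : A × Reg A κ m × M), r ≤ m + 1 → L.length = r * κ →
    hits g sch t x L ∨
      (∀ i, i < r → ∃ b, b < κ ∧ get star κ m (adv g sch t x L).2.1 i b ≠ star) := by
  intro r
  induction r with
  | zero => intro L x _ _; right; intro i hi; omega
  | succ r ih =>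
    intro L x hr hL
    have hsplit : L = L.take (r*κ) ++ L.drop (r*κ) := (List.take_append_drop _ _).symm
    have h1 : (L.take (r*κ)).length = r * κ := by
      rw [List.length_take, hL, Nat.succ_mul]; omega
    have h2 : (L.drop (r*κ)).length = κ := by
      rw [List.length_drop, hL, Nat.succ_mul]; omega
    rcases ih (L.take (r*κ)) x (by omega) h1 with h | h
    · left
      rw [hsplit, hits_append]; exact Or.inl h
    · have hro := round g star κ m E hE hE0 sch r (by omega) (L.drop (r*κ)) (t + r * κ)
        (adv g sch t x (L.take (r*κ))) h2 (by intro j hj; exact hs r j (by omega) hj)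
      rcases hro with h' | ⟨h', h''⟩
      · left
        rw [hsplit, hits_append, h1]; exact Or.inr h'
      · right
        have hadv : adv g sch t x L =
            adv g sch (t + r*κ) (adv g sch t x (L.take (r*κ))) (L.drop (r*κ)) := by
          conv_lhs => rw [hsplit]
          rw [adv_append, h1]
        intro i hi
        rcases Nat.lt_succ_iff_lt_or_eq.1 hi with hi' | rfl
        · obtain ⟨b, hb, hb'⟩ := h i hi'
          refine ⟨b, hb, ?_⟩
          rw [hadv, h'' i b (by omega) hb (by omega)]
          exact hb'
        · rw [hadv]; exact h'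

/-- recording stage, from the second step on -/
theorem record_ok (wp : Equiv.Perm (Reg A κ m)) (w : M) :
    ∀ (L C : List A) (j t : ℕ) (x : A × Reg A κ m × M),
    1 ≤ j → j + L.length = κ → C.length = j →
    (∀ j', j ≤ j' → j' < κ → sch (t + (j' - j)) = pstep g star κ m E wp j') →
    (List.range j).map (get star κ m x.2.1 0) = C →
    (∀ b, j ≤ b → b < κ → get star κ m x.2.1 0 b = star) →
    (∃ C', C = C' ++ [x.1]) →
    x.2.2 = PG g C • (w - E j) →
    (∃ k, j ≤ k ∧ k ≤ κ ∧ E k = w) →
    hits g sch t x L := by
  intro L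
  induction L with
  | nil =>
    intro C j t x _ hj _ _ _ _ _ hv ⟨k, hk1, hk2, hk3⟩
    have : k = j := by simp at hj; omega
    subst this
    simp only [hits]
    rw [hv, hk3, sub_self, smul_zero]
  | cons V L ih =>
    intro C j t x hj1 hj hC hs hc hst hlast hv ⟨k, hk1, hk2, hk3⟩
    simp only [hits]
    rcases Nat.eq_or_lt_of_le hk1 with h | h
    · left
      subst h
      rw [hv, hk3, sub_self, smul_zero]
    · right
      have hjk : j < κ := by simp at hj; omega
      have hst' : sch t = pstep g star κ m E wp j := by
        have := hs j (le_refl _) hjk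
        simpa using this
      have hreg : (one g (sch t) x V).2.1 = upd κ m 0 j (Equiv.swap V star) x.2.1 := by
        rw [hst']; simp only [one, pstep]; rw [if_neg (by omega)]
      apply ih (C ++ [V]) (j+1)
      · omega
      · simp at hj; omega
      · simp [hC]
      · intro j' h1 h2
        have := hs j' (by omega) h2
        rw [← this]; congr 1; omega
      · rw [hreg, List.range_succ, List.map_append, ← hc]
        congr 1
        · apply List.map_congr_left
          intro b hb
          rw [List.mem_range] at hb
          rw [get_upd star κ m _ _ _ _ _ _ (by omega) (by omega), if_neg (by omega)]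
        · simp only [List.map_cons, List.map_nil]
          rw [get_upd star κ m _ _ _ _ _ _ (by omega) (by omega), if_pos (by simp),
            hst j (le_refl _) hjk, Equiv.swap_apply_right]
      · intro b hb1 hb2
        rw [hreg, get_upd star κ m _ _ _ _ _ _ (by omega) (by omega), if_neg (by omega)]
        exact hst b (by omega) hb2
      · exact ⟨C, rfl⟩
      · obtain ⟨C', hC'⟩ := hlast
        have hPG : PG g (C ++ [V]) = g x.1 V * PG g C := by
          cases C with
          | nil => simp at hC; omega
          | cons c C =>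
            rw [PG_concat]
            congr 2
            have : (c :: C).getLast (by simp) = (C' ++ [x.1]).getLast (by simp) := by
              congr 1
            rw [this, List.getLast_append_singleton]
        have hx2 : (one g (sch t) x V).2.2 = g x.1 V • x.2.2 +
            (- (PG g (C ++ [V]) • (E (j+1) - E j))) := by
          rw [hst']; simp only [one, pstep]; rw [hc]
        rw [hx2, hv, smul_smul, ← hPG, ← smul_neg, ← smul_add]
        congr 1; abel
      · exact ⟨k, by omega, hk2, hk3⟩

include hE hE0 in
theorem record (wp : Equiv.Perm (Reg A κ m)) (hκ : 0 < κ) (L : List A) (t : ℕ)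
    (x : A × Reg A κ m × M) (hL : L.length = κ)
    (hs : ∀ j', j' < κ → sch (t + j') = pstep g star κ m E wp j')
    (hz : ∀ b, b < κ → get star κ m (wp x.2.1) 0 b = star) :
    hits g sch t x L := by
  cases L with
  | nil => simp at hL; omega
  | cons V L =>
    simp only [hits]
    by_cases hv : x.2.2 = 0
    · exact Or.inl hv
    · right
      obtain ⟨k, hk, hk'⟩ := hE (g x.1 V • x.2.2)
      have hk0 : 1 ≤ k := by
        rcases Nat.eq_zero_or_pos k with h | h
        · exfalso
          rw [h, hE0] at hk'
          exact hv ((smul_eq_zero_iff_eq _).1 hk'.symm)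
        · exact h
      have hst' : sch t = pstep g star κ m E wp 0 := by simpa using hs 0 hκ
      have hreg : (one g (sch t) x V).2.1 = upd κ m 0 0 (Equiv.swap V star) (wp x.2.1) := by
        rw [hst']; simp only [one, pstep]; rfl
      apply record_ok g star κ m E sch wp (g x.1 V • x.2.2) L [V] 1
      · omega
      · simp at hL; omega
      · rfl
      · intro j' h1 h2
        have := hs j' h2
        rw [← this]; congr 1; omega
      · rw [hreg]
        simp only [List.range_one, List.map_cons, List.map_nil]
        rw [get_upd star κ m _ _ _ _ _ _ (by omega) (by omega), if_pos (by simp),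
          hz 0 hκ, Equiv.swap_apply_right]
      · intro b hb1 hb2
        rw [hreg, get_upd star κ m _ _ _ _ _ _ (by omega) (by omega), if_neg (by omega)]
        exact hz b hb2
      · exact ⟨[], rfl⟩
      · have hx2 : (one g (sch t) x V).2.2 = g x.1 V • x.2.2 +
            (- (PG g ([] ++ [V]) • (E (0+1) - E 0))) := by
          rw [hst']; simp only [one, pstep]; rfl
        rw [hx2, hE0]
        simp [PG]
        abel
      · exact ⟨k, hk0, hk, hk'⟩

end scheme

theorem pow_ineq (a m : ℕ) : a ^ m * (a + m + 1) ≤ (a+1)^(m+1) := by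
  induction m with
  | zero => simp
  | succ m ih =>
    calc a^(m+1) * (a + (m+1) + 1) ≤ a^m*(a+m+1)*(a+1) := by
          rw [pow_succ, mul_assoc, mul_assoc]
          apply Nat.mul_le_mul_left
          nlinarith
      _ ≤ (a+1)^(m+1)*(a+1) := Nat.mul_le_mul_right _ ih
      _ = _ := by rw [← pow_succ]

theorem pow_le_aux (a m : ℕ) (h : a * a ≤ m) : a^(m+1) ≤ (a+1)^m := by
  have h1 := pow_ineq a m
  have h2 : a^(m+1) * (a+1) ≤ (a+1)^m * (a+1) := by
    calc a^(m+1) * (a+1) = a^m * (a * (a+1)) := by rw [pow_succ, mul_assoc]
      _ ≤ a^m * (a + m + 1) := by apply Nat.mul_le_mul_left; nlinarith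
      _ ≤ (a+1)^(m+1) := h1
      _ = _ := by rw [pow_succ]
  exact Nat.le_of_mul_le_mul_right h2 (by omega)

theorem perm_exists {U : Type} [Fintype U] (p q : U → Prop) [DecidablePred p] [DecidablePred q]
    (h : Fintype.card {x // p x} ≤ Fintype.card {x // q x}) :
    ∃ w : Equiv.Perm U, ∀ u, p u → q (w u) := by
  classical
  rw [Fintype.card_subtype, Fintype.card_subtype] at h
  obtain ⟨Z, hZ, hc⟩ := Finset.exists_subset_card_eq h
  let e : {x // x ∈ Finset.univ.filter p} ≃ {x // x ∈ Z} := Finset.equivOfCardEq hc.symm
  refine ⟨e.extendSubtype, ?_⟩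
  intro u hu
  have h1 := e.extendSubtype_mem u (by simp [hu])
  have h2 := hZ h1
  simpa using h2

theorem unf_perm {A : Type} [Finite A] (star : A) (κ : ℕ) : ∃ m : ℕ, ∃ w : Equiv.Perm (Reg A κ m),
    ∀ u : Reg A κ m, (∀ i, i < m + 1 → ∃ b, b < κ ∧ get star κ m u i b ≠ star) →
      ∀ b, b < κ → get star κ m (w u) 0 b = star := by
  classical
  have := Fintype.ofFinite A
  let R := Fin κ → A
  let c0 : R := fun _ => star
  set a := Fintype.card {r : R // r ≠ c0} with ha
  have hR : Fintype.card R = a + 1 := by
    have := Fintype.card_subtype_compl (fun r : R => r = c0)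
    have h1 : Fintype.card {r : R // r = c0} = 1 := by simp
    have h2 : 0 < Fintype.card R := Fintype.card_pos_iff.2 ⟨c0⟩
    have h3 : Fintype.card {r : R // ¬ r = c0} = a := by rw [ha]
    omega
  refine ⟨a * a, ?_⟩
  have h1 : Fintype.card {u : Reg A κ (a*a) // ∀ i, u i ≠ c0} ≤ a ^ (a*a+1) := by
    have : Fintype.card {u : Reg A κ (a*a) // ∀ i, u i ≠ c0} ≤
        Fintype.card (Fin (a*a+1) → {r : R // r ≠ c0}) := by
      apply Fintype.card_le_of_injective (fun u i => ⟨u.1 i, u.2 i⟩)
      intro u v h
      apply Subtype.ext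
      funext i
      have := congrFun h i
      exact congrArg Subtype.val this
    rw [Fintype.card_fun, Fintype.card_fin] at this
    exact this
  have h2 : (a+1)^(a*a) ≤ Fintype.card {u : Reg A κ (a*a) // u 0 = c0} := by
    have : Fintype.card (Fin (a*a) → R) ≤ Fintype.card {u : Reg A κ (a*a) // u 0 = c0} := by
      apply Fintype.card_le_of_injective (fun f => ⟨Fin.cons c0 f, by simp⟩)
      intro f f' h
      have := congrArg Subtype.val h
      exact Fin.cons_right_injective (α := fun _ => R) c0 this
    rw [← hR]
    simpa using this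
  obtain ⟨w, hw⟩ := perm_exists (fun u : Reg A κ (a*a) => ∀ i, u i ≠ c0) (fun u => u 0 = c0)
    (h1.trans ((pow_le_aux a (a*a) (le_refl _)).trans h2))
  refine ⟨w, ?_⟩
  intro u hu b hb
  have h3 : ∀ i, u i ≠ c0 := by
    intro i h
    obtain ⟨b, hb, hb'⟩ := hu i.1 i.2
    apply hb'
    unfold get
    rw [dif_pos ⟨i.2, hb⟩]
    exact congrFun h ⟨b, hb⟩
  have h4 := hw u h3
  unfold get
  rw [dif_pos ⟨by omega, hb⟩]
  exact congrFun h4 ⟨b, hb⟩

theorem exists_enum (M : Type) [Finite M] [AddCommGroup M] : ∃ (κ : ℕ) (E : ℕ → M), 0 < κ ∧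
    (∀ w : M, ∃ k, k ≤ κ ∧ E k = w) ∧ E 0 = 0 := by
  classical
  have := Fintype.ofFinite M
  refine ⟨Fintype.card M, fun k => match k with
    | 0 => 0
    | k+1 => if h : k < Fintype.card M then (Fintype.equivFin M).symm ⟨k, h⟩ else 0,
    Fintype.card_pos_iff.2 ⟨0⟩, ?_, rfl⟩
  intro w
  refine ⟨(Fintype.equivFin M w).1 + 1, by omega, ?_⟩
  simp

/-- the killing scheme -/
theorem kill {A M G : Type} [Finite A] [Finite M] [Group G] [AddCommGroup M]
    [DistribMulAction G M] (g : A → A → G) (star : A) :
    ∃ (U : Type) (_ : Fintype U) (_ : Nonempty U) (J : ℕ) (sch : ℕ → Stp A U M), 0 < J ∧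
      (∀ t, sch t = sch (t % J)) ∧
      ∀ (t : ℕ) (x : A × U × M) (bs : List A), 2 * J ≤ bs.length →
        ∃ i, 1 ≤ i ∧ i ≤ 2 * J ∧ (adv g sch t x (bs.take i)).2.2 = 0 := by
  classical
  have := Fintype.ofFinite A
  obtain ⟨κ, E, hκ, hE, hE0⟩ := exists_enum M
  obtain ⟨m, wp, hwp⟩ := unf_perm star κ
  set J := (m + 2) * κ with hJ
  have hJpos : 0 < J := by positivity
  let sch : ℕ → Stp A (Reg A κ m) M := fun t => stp g star κ m E wp ((t % J) / κ) ((t % J) % κ)
  have hsch : ∀ t0 i j, t0 % J = 0 → i < m + 2 → j < κ →
      sch (t0 + i * κ + j) = stp g star κ m E wp i j := by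
    intro t0 i j h0 hi hj
    have hlt : i * κ + j < J := by
      have : (i + 1) * κ ≤ (m + 2) * κ := Nat.mul_le_mul_right _ (by omega)
      rw [hJ]; nlinarith
    have h1 : (t0 + i * κ + j) % J = i * κ + j := by
      rw [add_assoc, Nat.add_mod, h0, zero_add, Nat.mod_mod, Nat.mod_eq_of_lt hlt]
    simp only [sch]
    rw [h1]
    have h2 : (i * κ + j) / κ = i := by
      rw [mul_comm, Nat.mul_add_div hκ, Nat.div_eq_of_lt hj, add_zero]
    have h3 : (i * κ + j) % κ = j := by
      rw [mul_comm, Nat.mul_add_mod, Nat.mod_eq_of_lt hj]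
    rw [h2, h3]
  have hN : ∀ t0 i j, t0 % J = 0 → i < m + 1 → j < κ →
      sch (t0 + i * κ + j) = nstep g star κ m E i j := by
    intro t0 i j h0 hi hj
    rw [hsch t0 i j h0 (by omega) hj]
    unfold stp
    rw [if_pos (by omega)]
  have hP : ∀ t0 j, t0 % J = 0 → j < κ →
      sch (t0 + (m+1) * κ + j) = pstep g star κ m E wp j := by
    intro t0 j h0 hj
    rw [hsch t0 (m+1) j h0 (by omega) hj]
    unfold stp
    rw [if_neg (by omega)]
  have hBL0 : ∀ t0, t0 % J = 0 → ∀ (L : List A) (x : A × Reg A κ m × M), L.length = J →
      hits g sch t0 x L := by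
    intro t0 h0 L x hL
    have hJ' : J = (m+1)*κ + κ := by rw [hJ]; ring
    have hsplit : L = L.take ((m+1)*κ) ++ L.drop ((m+1)*κ) := (List.take_append_drop _ _).symm
    have h1 : (L.take ((m+1)*κ)).length = (m+1) * κ := by
      rw [List.length_take, hL]; omega
    have h2 : (L.drop ((m+1)*κ)).length = κ := by
      rw [List.length_drop, hL]; omega
    rw [hsplit, hits_append]
    rcases rounds g star κ m E hE hE0 sch t0 (fun i j hi hj => hN t0 i j h0 hi hj) (m+1)
      (L.take ((m+1)*κ)) x (le_refl _) h1 with h | h
    · exact Or.inl h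
    · right
      rw [h1]
      exact record g star κ m E hE hE0 sch wp hκ _ _ _ h2 (fun j hj => hP t0 j h0 hj)
        (hwp _ h)
  refine ⟨Reg A κ m, inferInstance, ⟨fun _ _ => star⟩, J, sch, hJpos, ?_, ?_⟩
  · intro t
    simp only [sch, Nat.mod_mod]
  · intro t x bs hbs
    set r := J - t % J with hr
    have hmod := Nat.mod_lt t hJpos
    have ht0 : (t + r) % J = 0 := by
      have : t + r = J * (t / J + 1) := by
        have := Nat.div_add_mod t J
        rw [Nat.mul_add, mul_one]; omega
      rw [this]; exact Nat.mul_mod_right _ _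
    have hh := hBL0 (t + r) ht0 ((bs.drop r).take J) (adv g sch t x (bs.take r)) (by
      rw [List.length_take, List.length_drop]; omega)
    obtain ⟨i, hi, hi'⟩ := hits_iff g sch _ _ _ hh
    rw [List.length_take, List.length_drop] at hi
    refine ⟨r + i, by omega, by omega, ?_⟩
    have h3 : bs.take (r + i) = bs.take r ++ ((bs.drop r).take J).take i := by
      rw [List.take_take, Nat.min_eq_left (by omega), List.take_add]
    rw [h3, adv_append]
    have h4 : (bs.take r).length = r := by rw [List.length_take]; omega
    rw [h4]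
    exact hi'

end Pool.Agent.R544.LG
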