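import Mathlib

set_option autoImplicit false

/-! The morphism `a ↦ (a,0)(a,1)…(a,K)`. -/

namespace Pool.Agent.R544.LG

section

variable {L : Type} (K : ℕ)

def phi1 (a : L) : List (L × Fin (K+1)) := (List.finRange (K+1)).map (fun j => (a, j))

def Phi (c : List L) : List (L × Fin (K+1)) := c.flatMap (phi1 K)

theorem length_phi1 (a : L) : (phi1 K a).length = K + 1 := by simp [phi1]

theorem Phi_nil : Phi K ([] : List L) = [] := rfl
theorem Phi_cons (a : L) (c : List L) : Phi K (a :: c) = phi1 K a ++ Phi K c := rfl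
theorem Phi_append (a b : List L) : Phi K (a ++ b) = Phi K a ++ Phi K b := by
  unfold Phi; rw [List.flatMap_append]

theorem length_Phi (c : List L) : (Phi K c).length = c.length * (K+1) := by
  induction c with
  | nil => simp [Phi]
  | cons a c ih => rw [Phi_cons, List.length_append, ih, length_phi1, List.length_cons]; ring

/-- keep the letters with last index -/
def decL (y : List (L × Fin (K+1))) : List L :=
  y.filterMap (fun b => if b.2 = Fin.last K then some b.1 else none)

theorem decL_append (a b : List (L × Fin (K+1))) : decL K (a ++ b) = decL K a ++ decL K b := by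
  unfold decL; rw [List.filterMap_append]

theorem phi1_split (a : L) : phi1 K a = (phi1 K a).take K ++ [(a, Fin.last K)] := by
  have h1 : phi1 K a = (phi1 K a).take K ++ (phi1 K a).drop K := (List.take_append_drop _ _).symm
  have h2 : (phi1 K a).drop K = [(a, Fin.last K)] := by
    apply List.ext_getElem
    · rw [List.length_drop, length_phi1]; simp
    · intro i h1 h2
      simp at h2
      subst h2
      simp [phi1]
      rfl
  conv_lhs => rw [h1, h2]

theorem mem_take_phi1 (a : L) (s : ℕ) (b : L × Fin (K+1)) (hb : b ∈ (phi1 K a).take s) :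
    b.2.val < s ∧ b.1 = a := by
  rw [List.mem_take_iff_getElem] at hb
  obtain ⟨i, hi, rfl⟩ := hb
  rw [length_phi1] at hi
  simp [phi1]
  omega

theorem decL_nil_of (y : List (L × Fin (K+1))) (h : ∀ b ∈ y, b.2.val < K) : decL K y = [] := by
  unfold decL
  rw [List.filterMap_eq_nil_iff]
  intro b hb
  rw [if_neg]
  intro h2
  have := h b hb
  rw [h2, Fin.val_last] at this
  omega

theorem decL_drop_phi1 (a : L) (s : ℕ) (hs : s ≤ K) : decL K ((phi1 K a).drop s) = [a] := by
  rw [phi1_split, List.drop_append_of_le_length (by rw [List.length_take, length_phi1]; omega),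
    decL_append]
  rw [decL_nil_of K _ (by
    intro b hb
    have := mem_take_phi1 K a K b (List.mem_of_mem_drop hb)
    exact this.1)]
  simp [decL]

theorem decL_Phi (c : List L) : decL K (Phi K c) = c := by
  induction c with
  | nil => rfl
  | cons a c ih =>
    rw [Phi_cons, decL_append, ih]
    have := decL_drop_phi1 K a 0 (Nat.zero_le _)
    rw [List.drop_zero] at this
    rw [this]; rfl

theorem drop_Phi_cons (a : L) (c : List L) (s : ℕ) (hs : s ≤ K) :
    (Phi K (a :: c)).drop s = (phi1 K a).drop s ++ Phi K c := by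
  rw [Phi_cons, List.drop_append_of_le_length (by rw [length_phi1]; omega)]

theorem decL_drop (a : L) (c : List L) (s : ℕ) (hs : s ≤ K) :
    decL K ((Phi K (a :: c)).drop s) = a :: c := by
  rw [drop_Phi_cons K a c s hs, decL_append, decL_Phi, decL_drop_phi1 K a s hs]; rfl

theorem take_Phi_cons (a : L) (c : List L) (s : ℕ) (hs : s ≤ K + 1) :
    (Phi K (a :: c)).take s = (phi1 K a).take s := by
  rw [Phi_cons, List.take_append_of_le_length (by rw [length_phi1]; omega)]

theorem decL_take (c : List L) (s : ℕ) (hs : s ≤ K) : decL K ((Phi K c).take s) = [] := by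
  cases c with
  | nil => simp [Phi, decL]
  | cons a c =>
    rw [take_Phi_cons K a c s (by omega)]
    apply decL_nil_of
    intro b hb
    have := (mem_take_phi1 K a s b hb).1
    omega

/-- slices -/
def sl (c : List L) (s t : ℕ) : List (L × Fin (K+1)) := ((Phi K c).take t).drop s

theorem sl_eq (c1 c2 : List L) (s s' : ℕ) (hc : c1 ≠ []) (hs : s ≤ K) :
    sl K (c1 ++ c2) s (c1.length * (K+1) + s') = (Phi K c1).drop s ++ (Phi K c2).take s' := by
  unfold sl
  have h1 : (Phi K (c1 ++ c2)).take (c1.length * (K+1) + s') = Phi K c1 ++ (Phi K c2).take s' := by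
    rw [Phi_append, ← length_Phi, List.take_length_add_append]
  rw [h1, List.drop_append_of_le_length]
  rw [length_Phi]
  have := List.length_pos_iff.2 hc
  nlinarith

theorem decL_sl (c1 c2 : List L) (s s' : ℕ) (hc : c1 ≠ []) (hs : s ≤ K) (hs' : s' ≤ K) :
    decL K (sl K (c1 ++ c2) s (c1.length * (K+1) + s')) = c1 := by
  rw [sl_eq K c1 c2 s s' hc hs, decL_append, decL_take K c2 s' hs']
  cases c1 with
  | nil => exact absurd rfl hc
  | cons a c1 => rw [decL_drop K a c1 s hs, List.append_nil]

theorem head_sl (c1 c2 : List L) (s s' : ℕ) (hc : c1 ≠ []) (hs : s ≤ K) :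
    ∃ b : L × Fin (K+1), (sl K (c1 ++ c2) s (c1.length * (K+1) + s')).head? = some b ∧
      b.2.val = s := by
  rw [sl_eq K c1 c2 s s' hc hs]
  cases c1 with
  | nil => exact absurd rfl hc
  | cons a c1 =>
    rw [drop_Phi_cons K a c1 s hs]
    refine ⟨(a, ⟨s, by omega⟩), ?_, rfl⟩
    have : (phi1 K a).drop s = (a, ⟨s, by omega⟩) :: (phi1 K a).drop (s+1) := by
      rw [← List.getElem_cons_drop (by rw [length_phi1]; omega)]
      simp [phi1]
    rw [this]; rfl

theorem last_sl (c1 c2 : List L) (s s' : ℕ) (hc : c1 ≠ []) (hc2 : c2 ≠ []) (hs : s ≤ K)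
    (hs1 : 1 ≤ s') (hs2 : s' ≤ K + 1) :
    ∃ b : L × Fin (K+1), (sl K (c1 ++ c2) s (c1.length * (K+1) + s')).getLast? = some b ∧
      b.2.val + 1 = s' := by
  rw [sl_eq K c1 c2 s s' hc hs]
  cases c2 with
  | nil => exact absurd rfl hc2
  | cons a c2 =>
    rw [take_Phi_cons K a c2 s' hs2]
    refine ⟨(a, ⟨s'-1, by omega⟩), ?_, by simp; omega⟩
    rw [List.getLast?_append]
    have : ((phi1 K a).take s').getLast? = some (a, ⟨s'-1, by omega⟩) := by
      rw [List.getLast?_eq_getElem?, List.length_take, length_phi1, Nat.min_eq_left hs2,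
        List.getElem?_take_of_lt (by omega)]
      rw [List.getElem?_eq_getElem (by rw [length_phi1]; omega)]
      simp [phi1]
    rw [this]; rfl

theorem length_sl (c1 c2 : List L) (s s' : ℕ) (hc : c1 ≠ []) (hc2 : c2 ≠ []) (hs : s ≤ K)
    (hs2 : s' ≤ K + 1) :
    (sl K (c1 ++ c2) s (c1.length * (K+1) + s')).length + s = c1.length * (K+1) + s' := by
  rw [sl_eq K c1 c2 s s' hc hs, List.length_append, List.length_drop, List.length_take,
    length_Phi, length_Phi]
  have h1 := List.length_pos_iff.2 hc
  have h2 := List.length_pos_iff.2 hc2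
  have h3 : K + 1 ≤ c2.length * (K+1) := Nat.le_mul_of_pos_left _ h2
  have h4 : K + 1 ≤ c1.length * (K+1) := Nat.le_mul_of_pos_left _ h1
  omega

/-- successive letters -/
def Rel (b b' : L × Fin (K+1)) : Prop := b.2 = Fin.last K ∨ b'.2.val = b.2.val + 1

theorem chain_phi1 (a : L) : (phi1 K a).IsChain (Rel K) := by
  unfold phi1
  rw [List.isChain_map, List.isChain_iff_getElem]
  intro i hi
  right
  simp

theorem chain_Phi (c : List L) : (Phi K c).IsChain (Rel K) := by
  induction c with
  | nil => exact List.isChain_nil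
  | cons a c ih =>
    rw [Phi_cons, List.isChain_append]
    refine ⟨chain_phi1 K a, ih, ?_⟩
    intro x hx y _
    left
    rw [phi1_split] at hx
    simp at hx
    rw [← hx]

theorem chain_sl (c : List L) (s t : ℕ) : (sl K c s t).IsChain (Rel K) := by
  unfold sl
  exact (List.IsChain.take (chain_Phi K c) t).drop s

end

end Pool.Agent.R544.LG
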