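import Pool.Agent.R544.LG.Kernel
import Pool.Agent.R544.LG.Kill
import Pool.Agent.R544.LG.Word

set_option autoImplicit false

/-! The kernel `Y` of flights and the code `P`. -/

namespace Pool.Agent.R544.LG

section fl

variable {L : Type} {N : ℕ}

def fl (bs : List (Fin N → L)) : List L := bs.flatMap List.ofFn

theorem fl_cons (V : Fin N → L) (bs : List (Fin N → L)) : fl (V :: bs) = List.ofFn V ++ fl bs := rfl

theorem fl_append (a b : List (Fin N → L)) : fl (a ++ b) = fl a ++ fl b := by
  unfold fl; rw [List.flatMap_append]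

theorem length_fl (bs : List (Fin N → L)) : (fl bs).length = bs.length * N := by
  induction bs with
  | nil => simp [fl]
  | cons V bs ih => rw [fl_cons, List.length_append, ih, List.length_ofFn, List.length_cons]; ring

theorem fl_prefix (hN : 0 < N) : ∀ (bs bs' : List (Fin N → L)), fl bs <+: fl bs' → bs <+: bs' := by
  intro bs
  induction bs with
  | nil => intro bs' _; exact List.nil_prefix
  | cons V bs ih =>
    intro bs' h
    cases bs' with
    | nil =>
      have := h.length_le
      rw [length_fl, length_fl] at this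
      simp at this
      omega
    | cons V' bs' =>
      rw [fl_cons, fl_cons] at h
      obtain ⟨z, hz⟩ := h
      rw [List.append_assoc] at hz
      obtain ⟨h1, h2⟩ := List.append_inj hz (by simp)
      have hV : V = V' := List.ofFn_injective h1
      subst hV
      have := ih bs' ⟨z, h2⟩
      obtain ⟨r, hr⟩ := this
      exact ⟨r, by rw [← hr]; rfl⟩

theorem fl_inj (hN : 0 < N) (bs bs' : List (Fin N → L)) (h : fl bs = fl bs') : bs = bs' := by
  have h1 := fl_prefix hN bs bs' (by rw [h])
  have h2 : bs.length = bs'.length := by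
    have := congrArg List.length h
    rw [length_fl, length_fl] at this
    exact Nat.eq_of_mul_eq_mul_right hN this
  exact h1.eq_of_length h2

theorem fl_suffix (hN : 0 < N) (bs bs' : List (Fin N → L)) (h : fl bs <:+ fl bs') : bs <:+ bs' := by
  obtain ⟨x, hx⟩ := h
  have hl := congrArg List.length hx
  rw [List.length_append, length_fl, length_fl] at hl
  have hle : bs.length ≤ bs'.length := by
    by_contra hcon
    have : bs'.length * N < bs.length * N := Nat.mul_lt_mul_of_pos_right (by omega) hN
    omega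
  have h1 : fl bs' = fl (bs'.take (bs'.length - bs.length)) ++
      fl (bs'.drop (bs'.length - bs.length)) := by
    rw [← fl_append, List.take_append_drop]
  have h2 : x.length = (fl (bs'.take (bs'.length - bs.length))).length := by
    rw [length_fl, List.length_take, Nat.min_eq_left (by omega), Nat.sub_mul]
    omega
  rw [h1] at hx
  obtain ⟨_, h3⟩ := List.append_inj hx h2
  have h4 := fl_inj hN _ _ h3
  rw [h4]
  exact List.drop_suffix _ _

end fl

section

variable {A U M G : Type} [Group G] [AddCommGroup M] [DistribMulAction G M] (g : A → A → G)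
variable (sch : ℕ → Stp A U M)

theorem adv_congr (bs : List A) : ∀ (t t' : ℕ) (x : A × U × M), (∀ i, sch (t + i) = sch (t' + i)) →
    adv g sch t x bs = adv g sch t' x bs := by
  induction bs with
  | nil => intro t t' x _; rfl
  | cons V bs ih =>
    intro t t' x h
    rw [adv, adv]
    have h0 := h 0
    simp only [Nat.add_zero] at h0
    rw [h0]
    apply ih
    intro i
    have := h (1 + i)
    rw [← add_assoc, ← add_assoc] at this
    exact this

theorem adv_inj (bs : List A) : ∀ (t : ℕ) (P : A) (y y' : U × M),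
    (adv g sch t (P, y) bs).2 = (adv g sch t (P, y') bs).2 → y = y' := by
  induction bs with
  | nil => intro t P y y' h; exact h
  | cons V bs ih =>
    intro t P y y' h
    rw [adv, adv] at h
    have h1 := ih (t+1) V _ _ h
    have h2 := congrArg Prod.fst h1
    have h3 := congrArg Prod.snd h1
    have h4 : y.1 = y'.1 := (Equiv.injective _) h2
    change g P V • y.2 + (sch t).l V y.1 = g P V • y'.2 + (sch t).l V y'.1 at h3
    rw [h4] at h3
    exact Prod.ext h4 (MulAction.injective _ (add_right_cancel h3))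

theorem adv_zero (bs : List A) (t : ℕ) (P P' : A) (u : U) :
    (adv g sch t (P, u, 0) bs).2 = (adv g sch t (P', u, 0) bs).2 := by
  cases bs with
  | nil => rfl
  | cons V bs =>
    rw [adv, adv]
    simp [one]

end

section

variable {L : Type} {N : ℕ} {U M G : Type} [Fintype U] [Group G] [AddCommGroup M]
  [DistribMulAction G M] (g : (Fin N → L) → (Fin N → L) → G)
  (sch : ℕ → Stp (Fin N → L) U M) (J : ℕ) (hJ : 0 < J) (p : Fin N → L)

/-- number of cuts in a letter -/
abbrev KK (J : ℕ) (U : Type) [Fintype U] : ℕ := Fintype.card (Fin J × U)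

/-- the cut of a label -/
noncomputable def cut (hJ : 0 < J) (t : ℕ) (u : U) : ℕ :=
  (Fintype.equivFin (Fin J × U) (⟨t % J, Nat.mod_lt _ hJ⟩, u)).val + 1

omit [Fintype U] in
variable {J} in
theorem cut_pos [Fintype U] (t : ℕ) (u : U) : 1 ≤ cut J hJ t u := by unfold cut; omega

theorem cut_le (t : ℕ) (u : U) : cut J hJ t u ≤ KK J U := by
  unfold cut
  exact (Fintype.equivFin (Fin J × U) (⟨t % J, Nat.mod_lt _ hJ⟩, u)).isLt

theorem cut_inj (t t' : ℕ) (u u' : U) (h : cut J hJ t u = cut J hJ t' u') :
    t % J = t' % J ∧ u = u' := by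
  unfold cut at h
  have h1 : (Fintype.equivFin (Fin J × U) (⟨t % J, Nat.mod_lt _ hJ⟩, u)) =
      (Fintype.equivFin (Fin J × U) (⟨t' % J, Nat.mod_lt _ hJ⟩, u')) := Fin.ext (by omega)
  have h2 := (Fintype.equivFin (Fin J × U)).injective h1
  have h3 := congrArg Prod.fst h2
  have h4 := congrArg Prod.snd h2
  exact ⟨congrArg Fin.val h3, h4⟩

theorem cut_congr (t t' : ℕ) (u : U) (h : t % J = t' % J) : cut J hJ t u = cut J hJ t' u := by
  unfold cut; simp only [h]

/-- first return to zero -/
def FR (t : ℕ) (u : U) (bs : List (Fin N → L)) : Prop :=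
  (adv g sch t (p, u, 0) bs).2.2 = 0 ∧
    ∀ i, 0 < i → i < bs.length → (adv g sch t (p, u, 0) (bs.take i)).2.2 ≠ 0

/-- slice of a flight -/
noncomputable def slf (t : ℕ) (u : U) (bs bs2 : List (Fin N → L)) : List (L × Fin (KK J U + 1)) :=
  sl (KK J U) (fl bs ++ fl bs2) (cut J hJ t u)
    ((fl bs).length * (KK J U + 1) + cut J hJ (t + bs.length) (adv g sch t (p, u, 0) bs).2.1)

def YY : Set (List (L × Fin (KK J U + 1))) :=
  {y | ∃ (t : ℕ) (u : U) (bs bs2 : List (Fin N → L)), bs ≠ [] ∧ bs2 ≠ [] ∧
    FR g sch p t u bs ∧ y = slf g sch J hJ p t u bs bs2}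

variable (hN : 0 < N)
variable (hper : ∀ t, sch t = sch (t % J))
variable (hkill : ∀ (t : ℕ) (x : (Fin N → L) × U × M) (bs : List (Fin N → L)), 2 * J ≤ bs.length →
        ∃ i, 1 ≤ i ∧ i ≤ 2 * J ∧ (adv g sch t x (bs.take i)).2.2 = 0)

omit [Fintype U] [AddCommGroup M] in
include hper in
theorem sch_mod (t t' : ℕ) (h : t % J = t' % J) (i : ℕ) : sch (t + i) = sch (t' + i) := by
  rw [hper (t + i), hper (t' + i), Nat.add_mod, h, ← Nat.add_mod]

omit [Fintype U] [Group G] [AddCommGroup M] [DistribMulAction G M] in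
include hN in
theorem fl_ne {bs : List (Fin N → L)} (h : bs ≠ []) : fl bs ≠ [] := by
  intro h1
  have := congrArg List.length h1
  rw [length_fl, List.length_nil] at this
  have h2 := Nat.mul_pos (List.length_pos_iff.2 h) hN
  omega

omit [Fintype U] in
include hkill in
theorem FR_len (t : ℕ) (u : U) (bs : List (Fin N → L)) (h : FR g sch p t u bs) :
    bs.length ≤ 2 * J := by
  by_contra hcon
  obtain ⟨i, hi1, hi2, hi3⟩ := hkill t (p, u, 0) bs (by omega)
  exact h.2 i (by omega) (by omega) hi3

include hN in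
theorem slf_eq (t : ℕ) (u : U) (bs bs2 : List (Fin N → L)) (hbs : bs ≠ []) :
    slf g sch J hJ p t u bs bs2 = (Phi (KK J U) (fl bs)).drop (cut J hJ t u) ++
      (Phi (KK J U) (fl bs2)).take (cut J hJ (t + bs.length) (adv g sch t (p, u, 0) bs).2.1) :=
  sl_eq _ _ _ _ _ (fl_ne hN hbs) (cut_le J hJ t u)

include hN in
theorem slf_len (t : ℕ) (u : U) (bs bs2 : List (Fin N → L)) (hbs : bs ≠ []) (hbs2 : bs2 ≠ []) :
    (slf g sch J hJ p t u bs bs2).length + cut J hJ t u = (fl bs).length * (KK J U + 1) +
      cut J hJ (t + bs.length) (adv g sch t (p, u, 0) bs).2.1 :=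
  length_sl _ _ _ _ _ (fl_ne hN hbs) (fl_ne hN hbs2) (cut_le J hJ t u)
    ((cut_le J hJ _ _).trans (Nat.le_succ _))

include hN in
theorem slf_len2 (t : ℕ) (u : U) (bs bs2 : List (Fin N → L)) (hbs : bs ≠ []) (hbs2 : bs2 ≠ []) :
    2 ≤ (slf g sch J hJ p t u bs bs2).length := by
  have h1 := slf_len g sch J hJ p hN t u bs bs2 hbs hbs2
  have h2 := cut_le J hJ t u
  have h3 := cut_pos (J := J) hJ (t + bs.length) (adv g sch t (p, u, 0) bs).2.1
  have h4 : KK J U + 1 ≤ (fl bs).length * (KK J U + 1) :=
    Nat.le_mul_of_pos_left _ (List.length_pos_iff.2 (fl_ne hN hbs))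
  omega

include hN in
theorem decL_slf (t : ℕ) (u : U) (bs bs2 : List (Fin N → L)) (hbs : bs ≠ []) :
    decL (KK J U) (slf g sch J hJ p t u bs bs2) = fl bs :=
  decL_sl _ _ _ _ _ (fl_ne hN hbs) (cut_le J hJ t u) (cut_le J hJ _ _)

include hN hper in
theorem YY_pre : ∀ y ∈ YY g sch J hJ p, ∀ y' ∈ YY g sch J hJ p, y <+: y' → y = y' := by
  rintro y ⟨t, u, bs, bs2, hbs, hbs2, hFR, rfl⟩ y' ⟨t', u', bs', bs2', hbs', hbs2', hFR', rfl⟩ hpre
  -- heads
  obtain ⟨b, hb, hb'⟩ := head_sl (KK J U) (fl bs) (fl bs2) (cut J hJ t u)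
    (cut J hJ (t + bs.length) (adv g sch t (p, u, 0) bs).2.1) (fl_ne hN hbs) (cut_le J hJ t u)
  obtain ⟨c, hc, hc'⟩ := head_sl (KK J U) (fl bs') (fl bs2') (cut J hJ t' u')
    (cut J hJ (t' + bs'.length) (adv g sch t' (p, u', 0) bs').2.1) (fl_ne hN hbs') (cut_le J hJ t' u')
  have hbc : b = c := by
    obtain ⟨z, hz⟩ := hpre
    have h1 : (slf g sch J hJ p t' u' bs' bs2').head? = some b := by
      rw [← hz, List.head?_append]
      have : (slf g sch J hJ p t u bs bs2).head? = some b := hb
      rw [this]; rfl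
    have h2 : (slf g sch J hJ p t' u' bs' bs2').head? = some c := hc
    rw [h1] at h2
    exact Option.some.inj h2
  have hcut : cut J hJ t u = cut J hJ t' u' := by rw [← hb', ← hc', hbc]
  obtain ⟨ht, hu⟩ := cut_inj J hJ _ _ _ _ hcut
  subst hu
  have hadv : ∀ L', adv g sch t (p, u, 0) L' = adv g sch t' (p, u, 0) L' := fun L' =>
    adv_congr g sch L' t t' _ (sch_mod sch J hper t t' ht)
  have hfl : fl bs <+: fl bs' := by
    have := hpre.filterMap (fun b => if b.2 = Fin.last (KK J U) then some b.1 else none)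
    have h1 := decL_slf g sch J hJ p hN t u bs bs2 hbs
    have h2 := decL_slf g sch J hJ p hN t' u bs' bs2' hbs'
    unfold decL at h1 h2
    rw [h1, h2] at this
    exact this
  have hbb := fl_prefix hN _ _ hfl
  obtain ⟨X, hX⟩ := hbb
  by_cases hX0 : X = []
  · rw [hX0, List.append_nil] at hX
    subst hX
    apply hpre.eq_of_length
    have h1 := slf_len g sch J hJ p hN t u bs bs2 hbs hbs2
    have h2 := slf_len g sch J hJ p hN t' u bs bs2' hbs hbs2'
    rw [hadv] at h1
    have h3 : cut J hJ (t + bs.length) (adv g sch t' (p, u, 0) bs).2.1 =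
        cut J hJ (t' + bs.length) (adv g sch t' (p, u, 0) bs).2.1 := by
      apply cut_congr
      rw [Nat.add_mod, ht, ← Nat.add_mod]
    omega
  · exfalso
    have hlt : bs.length < bs'.length := by
      rw [← hX, List.length_append]
      have := List.length_pos_iff.2 hX0; omega
    have h1 := hFR'.2 bs.length (List.length_pos_iff.2 hbs) hlt
    apply h1
    have h2 : bs'.take bs.length = bs := by rw [← hX]; simp
    rw [h2, ← hadv]
    exact hFR.1

include hN hper in
theorem YY_suf : ∀ y ∈ YY g sch J hJ p, ∀ y' ∈ YY g sch J hJ p, y <:+ y' → y = y' := by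
  rintro y ⟨t, u, bs, bs2, hbs, hbs2, hFR, rfl⟩ y' ⟨t', u', bs', bs2', hbs', hbs2', hFR', rfl⟩ hsuf
  obtain ⟨b, hb, hb'⟩ := last_sl (KK J U) (fl bs) (fl bs2) (cut J hJ t u)
    (cut J hJ (t + bs.length) (adv g sch t (p, u, 0) bs).2.1) (fl_ne hN hbs) (fl_ne hN hbs2)
    (cut_le J hJ t u) (cut_pos hJ _ _) ((cut_le J hJ _ _).trans (Nat.le_succ _))
  obtain ⟨c, hc, hc'⟩ := last_sl (KK J U) (fl bs') (fl bs2') (cut J hJ t' u')
    (cut J hJ (t' + bs'.length) (adv g sch t' (p, u', 0) bs').2.1) (fl_ne hN hbs') (fl_ne hN hbs2')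
    (cut_le J hJ t' u') (cut_pos hJ _ _) ((cut_le J hJ _ _).trans (Nat.le_succ _))
  have hbc : b = c := by
    obtain ⟨z, hz⟩ := hsuf
    have h1 : (slf g sch J hJ p t' u' bs' bs2').getLast? = some b := by
      rw [← hz, List.getLast?_append]
      have : (slf g sch J hJ p t u bs bs2).getLast? = some b := hb
      rw [this]; rfl
    have h2 : (slf g sch J hJ p t' u' bs' bs2').getLast? = some c := hc
    rw [h1] at h2
    exact Option.some.inj h2
  have hcut : cut J hJ (t + bs.length) (adv g sch t (p, u, 0) bs).2.1 =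
      cut J hJ (t' + bs'.length) (adv g sch t' (p, u', 0) bs').2.1 := by rw [← hb', ← hc', hbc]
  obtain ⟨ht, hu⟩ := cut_inj J hJ _ _ _ _ hcut
  have hfl : fl bs <:+ fl bs' := by
    have := hsuf.filterMap (fun b => if b.2 = Fin.last (KK J U) then some b.1 else none)
    have h1 := decL_slf g sch J hJ p hN t u bs bs2 hbs
    have h2 := decL_slf g sch J hJ p hN t' u' bs' bs2' hbs'
    unfold decL at h1 h2
    rw [h1, h2] at this
    exact this
  obtain ⟨X, hX⟩ := fl_suffix hN _ _ hfl
  have hXl : X.length + bs.length = bs'.length := by rw [← hX, List.length_append]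
  have ht2 : t % J = (t' + X.length) % J := by
    have h1 : (t + bs.length) ≡ (t' + X.length + bs.length) [MOD J] := by
      unfold Nat.ModEq
      rw [ht]; congr 1; omega
    exact Nat.ModEq.add_right_cancel' _ h1
  have hadv : ∀ y0 L', adv g sch t y0 L' = adv g sch (t' + X.length) y0 L' := fun y0 L' =>
    adv_congr g sch L' t (t' + X.length) _ (sch_mod sch J hper t _ ht2)
  have hend : (adv g sch t (p, u, 0) bs).2 = (adv g sch t' (p, u', 0) bs').2 :=
    Prod.ext hu (by rw [hFR.1, hFR'.1])
  have hsplit : adv g sch t' (p, u', 0) bs' =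
      adv g sch (t' + X.length) (adv g sch t' (p, u', 0) X) bs := by
    rw [← hX, adv_append]
  have hz : (adv g sch t' (p, u', 0) X).2 = (u, 0) := by
    apply adv_inj g sch bs (t' + X.length) (adv g sch t' (p, u', 0) X).1
    have e1 : ((adv g sch t' (p, u', 0) X).1, (adv g sch t' (p, u', 0) X).2) =
      adv g sch t' (p, u', 0) X := rfl
    rw [e1, ← hsplit, ← hend, adv_zero g sch bs t p (adv g sch t' (p, u', 0) X).1 u, hadv]
  by_cases hX0 : X = []
  · subst hX0
    rw [List.nil_append] at hX
    subst hX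
    have hu2 : u' = u := congrArg Prod.fst hz
    subst hu2
    have htt : t % J = t' % J := by simpa using ht2
    apply hsuf.eq_of_length
    have h1 := slf_len g sch J hJ p hN t u' bs bs2 hbs hbs2
    have h2 := slf_len g sch J hJ p hN t' u' bs bs2' hbs hbs2'
    have h3 := cut_congr J hJ t t' u' htt
    omega
  · exfalso
    have h1 := hFR'.2 X.length (List.length_pos_iff.2 hX0) (by
      have := List.length_pos_iff.2 hbs; omega)
    apply h1
    have h2 : bs'.take X.length = X := by rw [← hX]; simp
    rw [h2]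
    exact congrArg Prod.snd hz

include hN in
theorem YY_last (y : List (L × Fin (KK J U + 1))) (hy : y ∈ YY g sch J hJ p) :
    ∃ b, y.getLast? = some b ∧ b.2.val < KK J U := by
  obtain ⟨t, u, bs, bs2, hbs, hbs2, hFR, rfl⟩ := hy
  obtain ⟨b, hb, hb'⟩ := last_sl (KK J U) (fl bs) (fl bs2) (cut J hJ t u)
    (cut J hJ (t + bs.length) (adv g sch t (p, u, 0) bs).2.1) (fl_ne hN hbs) (fl_ne hN hbs2)
    (cut_le J hJ t u) (cut_pos hJ _ _) ((cut_le J hJ _ _).trans (Nat.le_succ _))
  have := cut_le J hJ (t + bs.length) (adv g sch t (p, u, 0) bs).2.1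
  exact ⟨b, hb, by omega⟩

/-- the degree -/
def dd (N : ℕ) (J : ℕ) (U : Type) [Fintype U] : ℕ := (2 * J * N) * (KK J U + 1) + KK J U + 1

include hN hper hkill in
theorem YY_ker : Ker (YY g sch J hJ p) (dd N J U) (KK J U + 1) where
  ne := by
    rintro ⟨t, u, bs, bs2, hbs, hbs2, hFR, h⟩
    have := slf_len2 g sch J hJ p hN t u bs bs2 hbs hbs2
    rw [← h] at this
    simp at this
  pre := YY_pre g sch J hJ p hN hper
  suf := YY_suf g sch J hJ p hN hper
  len := by
    rintro y ⟨t, u, bs, bs2, hbs, hbs2, hFR, rfl⟩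
    have h1 := slf_len g sch J hJ p hN t u bs bs2 hbs hbs2
    have h2 := FR_len g sch J p hkill t u bs hFR
    have h3 := cut_le J hJ (t + bs.length) (adv g sch t (p, u, 0) bs).2.1
    rw [length_fl] at h1
    unfold dd
    have h4 : bs.length * N * (KK J U + 1) ≤ (2 * J * N) * (KK J U + 1) :=
      Nat.mul_le_mul_right _ (Nat.mul_le_mul_right _ h2)
    omega
  gap := by
    intro c z hz
    by_contra hcon
    push Not at hcon
    -- every time is a `Y` time
    have key : ∀ t, (ht : t < KK J U + 1) → (z[t]'(by omega)).2.val < KK J U ∧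
        (∀ ht' : 1 ≤ t, Rel (KK J U) (z[t-1]'(by omega)) (z[t]'(by omega))) := by
      intro t ht
      obtain ⟨y, hy, hy'⟩ := hcon t ht
      obtain ⟨b, hb, hb'⟩ := YY_last g sch J hJ p hN y hy
      have hzt : z.take (t+1) = z.take t ++ [z[t]'(by omega)] := by
        rw [List.take_add_one, List.getElem?_eq_getElem (by omega)]; rfl
      have hlast : b = z[t]'(by omega) := by
        obtain ⟨q, hq⟩ := hy'
        have h1 : (c ++ z.take (t+1)).getLast? = some b := by
          rw [← hq, List.getLast?_append, hb]; rfl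
        rw [hzt, ← List.append_assoc, List.getLast?_append] at h1
        simp at h1
        exact h1.symm
      refine ⟨by rw [← hlast]; exact hb', ?_⟩
      intro ht'
      obtain ⟨t0, u, bs, bs2, hbs, hbs2, hFR, hyeq⟩ := hy
      have hlen2 := slf_len2 g sch J hJ p hN t0 u bs bs2 hbs hbs2
      rw [← hyeq] at hlen2
      have hchain : y.IsChain (Rel (KK J U)) := by rw [hyeq]; exact chain_sl _ _ _ _
      -- last two letters
      have hzt2 : c ++ z.take (t+1) = (c ++ z.take (t-1)) ++ [z[t-1]'(by omega), z[t]'(by omega)] := by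
        rw [hzt]
        have : z.take t = z.take (t-1) ++ [z[t-1]'(by omega)] := by
          conv_lhs => rw [show t = (t-1)+1 by omega]
          rw [List.take_add_one, List.getElem?_eq_getElem (by omega)]; rfl
        rw [this]
        simp only [List.append_assoc, List.cons_append, List.nil_append]
      have hsuf2 : [z[t-1]'(by omega), z[t]'(by omega)] <:+ y := by
        apply List.suffix_of_suffix_length_le _ hy' (by simpa using hlen2)
        rw [hzt2]; exact List.suffix_append _ _
      have hc2 := List.IsChain.suffix hchain hsuf2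
      rw [List.isChain_cons_cons] at hc2
      exact hc2.1
    have hidx : ∀ t, (ht : t < KK J U + 1) → t ≤ (z[t]'(by omega)).2.val := by
      intro t
      induction t with
      | zero => intro _; omega
      | succ t ih =>
        intro ht
        have h1 := ih (by omega)
        have h2 := (key (t+1) ht).2 (by omega)
        have h3 := (key t (by omega)).1
        simp only [Nat.add_sub_cancel] at h2
        rcases h2 with h2 | h2
        · rw [h2, Fin.val_last] at h3; omega
        · omega
    have h1 := hidx (KK J U) (by omega)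
    have h2 := (key (KK J U) (by omega)).1
    omega
  dpos := by unfold dd; omega

/-- the code -/
def PP : Set (List (L × Fin (KK J U + 1))) := PY (YY g sch J hJ p) (dd N J U)

include hN hper hkill in
theorem PP_bif : Bif (PP g sch J hJ p) ((KK J U + 1) * dd N J U) :=
  PY_bif (YY_ker g sch J hJ p hN hper hkill)

theorem YY_sub : YY g sch J hJ p ⊆ PP g sch J hJ p := fun _ hy => Or.inl hy

end

end Pool.Agent.R544.LG
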