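import Pool.Agent.R544.LG.Bifix

set_option autoImplicit false

/-! The maximal bifix code of degree `d` with (finite) kernel `Y`. -/

namespace Pool.Agent.R544.LG

open Classical

section

variable {B : Type} (Y : Set (List B)) (d : ℕ)

/-- a word of `Y` ends at the end of `x` -/
def T (x : List B) : Prop := ∃ y ∈ Y, y <:+ x

/-- number of times at which no word of `Y` ends -/
noncomputable def cnt (x : List B) : ℕ :=
  ((Finset.range x.length).filter (fun t => ¬ T Y (x.take (t+1)))).card

/-- the code -/
def PY : Set (List B) :=
  {x | x ∈ Y ∨ (cnt Y x = d ∧ ¬ T Y x ∧ ∀ y ∈ Y, ¬ y <+: x)}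

theorem cnt_le (x : List B) : cnt Y x ≤ x.length := by
  unfold cnt
  calc _ ≤ (Finset.range x.length).card := Finset.card_filter_le _ _
    _ = x.length := by simp

theorem cnt_append (u v : List B) :
    cnt Y (u ++ v) = cnt Y u +
      ((Finset.range v.length).filter (fun t => ¬ T Y (u ++ v.take (t+1)))).card := by
  unfold cnt
  have h1 : (Finset.range (u ++ v).length) =
      (Finset.range u.length) ∪ (Finset.range v.length).image (fun t => u.length + t) := by
    ext t
    simp only [List.length_append, Finset.mem_range, Finset.mem_union, Finset.mem_image]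
    constructor
    · intro h
      by_cases h2 : t < u.length
      · exact Or.inl h2
      · exact Or.inr ⟨t - u.length, by omega, by omega⟩
    · rintro (h | ⟨s, hs, rfl⟩) <;> omega
  rw [h1, Finset.filter_union, Finset.card_union_of_disjoint]
  · congr 1
    · congr 1
      apply Finset.filter_congr
      intro t ht
      rw [Finset.mem_range] at ht
      rw [List.take_append_of_le_length (by omega)]
    · rw [Finset.filter_image, Finset.card_image_of_injective _ (fun a b h => by simpa using h)]
      congr 1
      apply Finset.filter_congr
      intro t ht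
      have : (u ++ v).take (u.length + t + 1) = u ++ v.take (t+1) := by
        rw [add_assoc, List.take_length_add_append]
      rw [this]
  · rw [Finset.disjoint_left]
    intro t h2 h3
    simp only [Finset.mem_filter, Finset.mem_range, Finset.mem_image] at h2 h3
    obtain ⟨⟨s, hs, rfl⟩, _⟩ := h3
    omega

theorem cnt_nil : cnt Y ([] : List B) = 0 := by simp [cnt]

theorem cnt_prefix (u v : List B) (h : u <+: v) : cnt Y u ≤ cnt Y v := by
  obtain ⟨t, rfl⟩ := h
  rw [cnt_append]; omega

theorem cnt_last (u v : List B) (hv : v ≠ []) (h : ¬ T Y (u ++ v)) :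
    cnt Y u + 1 ≤ cnt Y (u ++ v) := by
  rw [cnt_append]
  have : 0 < ((Finset.range v.length).filter (fun t => ¬ T Y (u ++ v.take (t+1)))).card := by
    rw [Finset.card_pos]
    have h1 := List.length_pos_iff.2 hv
    refine ⟨v.length - 1, ?_⟩
    rw [Finset.mem_filter, Finset.mem_range]
    refine ⟨by omega, ?_⟩
    rw [Nat.sub_add_cancel h1, List.take_length]
    exact h
  omega

theorem cnt_add_T (x : List B) :
    cnt Y x + ((Finset.range x.length).filter (fun t => T Y (x.take (t+1)))).card = x.length := by
  unfold cnt
  have := Finset.card_filter_add_card_filter_not (s := Finset.range x.length)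
    (fun t => T Y (x.take (t+1)))
  rw [Finset.card_range] at this
  omega

/-- hypotheses on the kernel -/
structure Ker (n0 : ℕ) : Prop where
  ne : [] ∉ Y
  pre : ∀ p ∈ Y, ∀ q ∈ Y, p <+: q → p = q
  suf : ∀ p ∈ Y, ∀ q ∈ Y, p <:+ q → p = q
  len : ∀ y ∈ Y, y.length < d
  gap : ∀ c z : List B, z.length = n0 → ∃ t, t < n0 ∧ ¬ T Y (c ++ z.take (t+1))
  dpos : 0 < d

variable {Y d} {n0 : ℕ} (hY : Ker Y d n0)

include hY in
theorem cnt_suffix (s x : List B) (hs : s ≠ []) (hx : ∀ y ∈ Y, ¬ y <+: (s ++ x)) :
    cnt Y x + 1 ≤ cnt Y (s ++ x) := by
  have e1 := cnt_add_T Y x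
  have e2 := cnt_add_T Y (s ++ x)
  rw [List.length_append] at e2
  have hspos := List.length_pos_iff.2 hs
  -- choose the word of `Y`
  have hch : ∀ t : ℕ, ∃ y : List B, T Y ((s ++ x).take (t+1)) → y ∈ Y ∧ y <:+ (s ++ x).take (t+1) := by
    intro t
    by_cases h : T Y ((s ++ x).take (t+1))
    · obtain ⟨y, hy, hy'⟩ := h
      exact ⟨y, fun _ => ⟨hy, hy'⟩⟩
    · exact ⟨[], fun h' => absurd h' h⟩
  choose yy hyy using hch
  set A := (Finset.range (s.length + x.length)).filter (fun t => T Y ((s ++ x).take (t+1))) with hA
  set A1 := A.filter (fun t => t + 1 - (yy t).length < s.length) with hA1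
  set A2 := A.filter (fun t => ¬ t + 1 - (yy t).length < s.length) with hA2
  have hsplit : A.card = A1.card + A2.card := (Finset.card_filter_add_card_filter_not _).symm
  have hmem : ∀ t ∈ A, t < s.length + x.length ∧ yy t ∈ Y ∧ yy t <:+ (s ++ x).take (t+1) ∧
      (yy t).length ≤ t + 1 := by
    intro t ht
    rw [hA, Finset.mem_filter, Finset.mem_range] at ht
    obtain ⟨h1, h2⟩ := ht
    obtain ⟨h3, h4⟩ := hyy t h2
    refine ⟨h1, h3, h4, ?_⟩
    have := h4.length_le
    rw [List.length_take] at this
    omega
  have c1 : A1.card ≤ s.length - 1 := by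
    have : A1.card ≤ (Finset.Ico 1 s.length).card := by
      apply Finset.card_le_card_of_injOn (fun t => t + 1 - (yy t).length)
      · intro t ht
        have ht' : t ∈ A1 := ht
        rw [hA1, Finset.mem_filter] at ht'
        obtain ⟨h1, h2, h3, h4⟩ := hmem t ht'.1
        have h5 := ht'.2
        simp only [Finset.coe_Ico, Set.mem_Ico]
        refine ⟨?_, h5⟩
        by_contra hlt
        have h6 : (yy t).length = t + 1 := by omega
        apply hx (yy t) h2
        have h7 : yy t = (s ++ x).take (t+1) := by
          apply List.IsSuffix.eq_of_length h3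
          rw [h6, List.length_take, List.length_append]
          omega
        rw [h7]
        exact List.take_prefix _ _
      · intro t ht t' ht' hEq
        have ht1 : t ∈ A1 := ht
        have ht1' : t' ∈ A1 := ht'
        rw [hA1, Finset.mem_filter] at ht1 ht1'
        obtain ⟨h1, h2, h3, h4⟩ := hmem t ht1.1
        obtain ⟨h1', h2', h3', h4'⟩ := hmem t' ht1'.1
        have hEq' : t + 1 - (yy t).length = t' + 1 - (yy t').length := hEq
        -- both words start at the same place
        have hw : ∀ r : ℕ, r < s.length + x.length → yy r <:+ (s ++ x).take (r+1) →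
            (yy r).length ≤ r + 1 →
            yy r = ((s ++ x).drop (r + 1 - (yy r).length)).take (yy r).length := by
          intro r hr hsuf hle
          have a1 : yy r = ((s ++ x).take (r+1)).drop (r + 1 - (yy r).length) := by
            rw [List.suffix_iff_eq_drop] at hsuf
            have : ((s ++ x).take (r+1)).length = r + 1 := by
              rw [List.length_take, List.length_append]; omega
            rw [this] at hsuf
            exact hsuf
          have a2 : ((s ++ x).take (r+1)).drop (r + 1 - (yy r).length)
              = ((s ++ x).drop (r + 1 - (yy r).length)).take (r + 1 - (r + 1 - (yy r).length)) :=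
            List.drop_take ..
          have a3 : r + 1 - (r + 1 - (yy r).length) = (yy r).length := by omega
          rw [a3] at a2
          rw [← a2]; exact a1
        have w1 := hw t h1 h3 h4
        have w2 := hw t' h1' h3' h4'
        rw [← hEq'] at w2
        have hEqY : yy t = yy t' := by
          rcases Nat.le_total (yy t).length (yy t').length with hl | hl
          · apply hY.pre _ h2 _ h2'
            rw [w1, w2]
            exact List.take_prefix_take_left hl
          · symm
            apply hY.pre _ h2' _ h2
            rw [w1, w2]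
            exact List.take_prefix_take_left hl
        rw [hEqY] at hEq' h4
        omega
    simpa using this
  have c2 : A2.card ≤ ((Finset.range x.length).filter (fun t => T Y (x.take (t+1)))).card := by
    apply Finset.card_le_card_of_injOn (fun t => t - s.length)
    · intro t ht
      have ht' : t ∈ A2 := ht
      rw [hA2, Finset.mem_filter] at ht'
      obtain ⟨h1, h2, h3, h4⟩ := hmem t ht'.1
      have h5 := ht'.2
      have h6 : (yy t).length ≠ 0 := by
        intro h
        exact hY.ne (List.length_eq_zero_iff.1 h ▸ h2)
      have h7 : s.length ≤ t := by omega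
      simp only [Finset.coe_filter, Finset.mem_range]
      refine ⟨by omega, ?_⟩
      refine ⟨yy t, h2, ?_⟩
      have h8 : (s ++ x).take (t+1) = s ++ x.take (t - s.length + 1) := by
        rw [List.take_append]
        rw [List.take_of_length_le (by omega)]
        congr 2
        omega
      rw [h8] at h3
      apply List.suffix_of_suffix_length_le h3 (List.suffix_append _ _)
      rw [List.length_take]
      omega
    · intro t ht t' ht' hEq
      have ht1 : t ∈ A2 := ht
      have ht1' : t' ∈ A2 := ht'
      rw [hA2, Finset.mem_filter] at ht1 ht1'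
      obtain ⟨h1, h2, h3, h4⟩ := hmem t ht1.1
      obtain ⟨h1', h2', h3', h4'⟩ := hmem t' ht1'.1
      have h5 := ht1.2
      have h5' := ht1'.2
      have h6 : (yy t).length ≠ 0 := by
        intro h
        exact hY.ne (List.length_eq_zero_iff.1 h ▸ h2)
      have h6' : (yy t').length ≠ 0 := by
        intro h
        exact hY.ne (List.length_eq_zero_iff.1 h ▸ h2')
      have hEq' : t - s.length = t' - s.length := hEq
      omega
  have e3 : A.card = ((Finset.range (s ++ x).length).filter
      (fun t => T Y ((s ++ x).take (t+1)))).card := by
    rw [hA, List.length_append]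
  rw [List.length_append] at e3
  omega

include hY in
theorem cnt_grow (m : ℕ) : ∀ w : List B, n0 * m ≤ w.length → m ≤ cnt Y w := by
  induction m with
  | zero => intro w _; omega
  | succ m ih =>
    intro w hw
    have h1 : n0 * m ≤ (w.take (n0*m)).length := by
      rw [List.length_take]; rw [Nat.mul_succ] at hw; omega
    have h2 := ih _ h1
    have hz : ((w.drop (n0*m)).take n0).length = n0 := by
      rw [List.length_take, List.length_drop]; rw [Nat.mul_succ] at hw; omega
    obtain ⟨t, ht, ht'⟩ := hY.gap (w.take (n0*m)) _ hz
    have h3 : w.take (n0*m) ++ ((w.drop (n0*m)).take n0).take (t+1) <+: w := by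
      rw [List.take_take, Nat.min_eq_left (by omega)]
      rw [← List.take_add]
      exact List.take_prefix _ _
    have h4 := cnt_prefix Y _ _ h3
    have h5 := cnt_last Y (w.take (n0*m)) (((w.drop (n0*m)).take n0).take (t+1)) (by
      intro h
      have := congrArg List.length h
      rw [List.length_take, hz, List.length_nil] at this
      omega) ht'
    omega

include hY in
theorem PY_bif : Bif (PY Y d) (n0 * d) where
  ne := by
    rintro (h | ⟨h, _, _⟩)
    · exact hY.ne h
    · rw [cnt_nil] at h; have := hY.dpos; omega
  pre := by
    rintro p hp q hq hpq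
    rcases hp with hp | ⟨hp1, hp2, hp3⟩
    · rcases hq with hq | ⟨hq1, hq2, hq3⟩
      · exact hY.pre _ hp _ hq hpq
      · exact absurd hpq (hq3 p hp)
    · rcases hq with hq | ⟨hq1, hq2, hq3⟩
      · exfalso
        have h1 := cnt_le Y p
        have h2 := hpq.length_le
        have h3 := hY.len q hq
        omega
      · obtain ⟨z, rfl⟩ := hpq
        by_cases hz : z = []
        · simp [hz]
        · have := cnt_last Y p z hz hq2
          omega
  suf := by
    rintro p hp q hq hpq
    rcases hp with hp | ⟨hp1, hp2, hp3⟩
    · rcases hq with hq | ⟨hq1, hq2, hq3⟩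
      · exact hY.suf _ hp _ hq hpq
      · exact absurd ⟨p, hp, hpq⟩ hq2
    · rcases hq with hq | ⟨hq1, hq2, hq3⟩
      · exfalso
        have h1 := cnt_le Y p
        have h2 := hpq.length_le
        have h3 := hY.len q hq
        omega
      · obtain ⟨s, rfl⟩ := hpq
        by_cases hs : s = []
        · simp [hs]
        · have := cnt_suffix hY s p hs hq3
          omega
  com := by
    intro w hw
    have h1 : d ≤ cnt Y w := cnt_grow hY d w (by omega)
    have hex : ∃ t, d ≤ cnt Y (w.take t) := ⟨w.length, by rw [List.take_length]; exact h1⟩
    set t := Nat.find hex with ht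
    have h2 : d ≤ cnt Y (w.take t) := Nat.find_spec hex
    have h3 : 0 < t := by
      rcases Nat.eq_zero_or_pos t with h | h
      · rw [h, List.take_zero, cnt_nil] at h2
        have := hY.dpos; omega
      · exact h
    have h4 : ¬ d ≤ cnt Y (w.take (t-1)) := Nat.find_min hex (by omega)
    have htl : t ≤ w.length := by
      apply Nat.find_min' hex
      rw [List.take_length]; exact h1
    have h5 : w.take t = w.take (t-1) ++ (w.take t).drop (t-1) := by
      conv_lhs => rw [← List.take_append_drop (t-1) (w.take t)]
      rw [List.take_take, Nat.min_eq_left (by omega)]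
    have h6 : ((w.take t).drop (t-1)).length = 1 := by
      rw [List.length_drop, List.length_take]; omega
    have h7 : cnt Y (w.take t) ≤ cnt Y (w.take (t-1)) + (if T Y (w.take t) then 0 else 1) := by
      conv_lhs => rw [h5]
      rw [cnt_append, h6]
      have : (Finset.range 1) = {0} := rfl
      rw [this, Finset.filter_singleton]
      have h8 : w.take (t-1) ++ ((w.take t).drop (t-1)).take (0+1) = w.take t := by
        have h10 : ((w.take t).drop (t-1)).take (0+1) = (w.take t).drop (t-1) :=
          List.take_of_length_le (by omega)
        rw [h10]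
        exact h5.symm
      rw [h8]
      by_cases hT : T Y (w.take t)
      · simp [hT]
      · simp [hT]
    have h9 : ¬ T Y (w.take t) := by
      intro hT
      rw [if_pos hT] at h7
      omega
    rw [if_neg h9] at h7
    by_cases hyp : ∃ y ∈ Y, y <+: w.take t
    · obtain ⟨y, hy, hy'⟩ := hyp
      exact ⟨y, Or.inl hy, hy'.trans (List.take_prefix _ _)⟩
    · push Not at hyp
      exact ⟨w.take t, Or.inr ⟨by omega, h9, hyp⟩, List.take_prefix _ _⟩

end

end Pool.Agent.R544.LG
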