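import Pool.Agent.R544.LG.Char

set_option autoImplicit false

/-! Recovering the data from the tests. -/

namespace Pool.Agent.R544.LG

section

variable {A U M G : Type} [Group G] [AddCommGroup M] [DistribMulAction G M] (g : A → A → G)
variable (sch : ℕ → Stp A U M)

theorem adv_affine (bs : List A) : ∀ (t : ℕ) (P : A) (u : U) (v : M),
    (adv g sch t (P, u, v) bs).2.1 = (adv g sch t (P, u, 0) bs).2.1 ∧
    (adv g sch t (P, u, v) bs).2.2 = PG g (P :: bs) • v + (adv g sch t (P, u, 0) bs).2.2 := by
  induction bs with
  | nil => intro t P u v; simp [adv, PG]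
  | cons V bs ih =>
    intro t P u v
    rw [adv, adv, PG]
    unfold one
    simp only
    obtain ⟨h1, h2⟩ := ih (t+1) V ((sch t).σ V u) (g P V • v + (sch t).l V u)
    obtain ⟨h3, h4⟩ := ih (t+1) V ((sch t).σ V u) (g P V • (0:M) + (sch t).l V u)
    refine ⟨by rw [h1, h3], ?_⟩
    rw [h2, h4, smul_zero, zero_add, smul_add, mul_smul, add_assoc]

theorem PG_split (C : List A) (b : A) : ∀ (A' : List A),
    PG g (A' ++ b :: C) = PG g (b :: C) * PG g (A' ++ [b]) := by
  intro A'
  induction A' with
  | nil => simp [PG]
  | cons a A' ih =>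
    cases A' with
    | nil => simp [PG]
    | cons a' A' =>
      have h1 : a :: a' :: A' ++ b :: C = a :: a' :: (A' ++ b :: C) := rfl
      have h2 : a :: a' :: A' ++ [b] = a :: a' :: (A' ++ [b]) := rfl
      rw [h1, h2, PG, PG, ← mul_assoc]
      congr 1

end

section

variable {L : Type} {N : ℕ} {U M G : Type} [Fintype U] [Group G] [AddCommGroup M]
  [DistribMulAction G M] (g : (Fin N → L) → (Fin N → L) → G)
  (sch : ℕ → Stp (Fin N → L) U M) (J : ℕ) (hJ : 0 < J)

variable (hN : 0 < N)
variable (hper : ∀ t, sch t = sch (t % J))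
variable (hkill : ∀ (t : ℕ) (x : (Fin N → L) × U × M) (bs : List (Fin N → L)), 2 * J ≤ bs.length →
        ∃ i, 1 ≤ i ∧ i ≤ 2 * J ∧ (adv g sch t x (bs.take i)).2.2 = 0)

omit [Fintype U] [AddCommGroup M] [Group G] [DistribMulAction G M] in
theorem fl_replicate (e : L) (k : ℕ) :
    fl (List.replicate k (fun _ : Fin N => e)) = List.replicate (k * N) e := by
  induction k with
  | zero => simp [fl]
  | succ k ih =>
    rw [List.replicate_succ, fl_cons, ih, List.ofFn_const, List.replicate_append_replicate]
    congr 1; ring

theorem Phi_rep_prefix (K : ℕ) (e : L) (a b : ℕ) (h : a ≤ b) :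
    Phi K (List.replicate a e) <+: Phi K (List.replicate b e) := by
  obtain ⟨c, rfl⟩ := Nat.exists_eq_add_of_le h
  rw [← List.replicate_append_replicate, Phi_append]
  exact List.prefix_append _ _

/-- the bound for the test words -/
def Lb (N J K : ℕ) : ℕ := (2 * J + 3) * N * (K + 1)

include hN hper hkill in
theorem recover_aux (e : L) (u0 : U) (v : M) (w w' : List L)
    (htest : ∀ s r : List (L × Fin (KK J U + 1)), s.length ≤ Lb N J (KK J U) →
        r.length ≤ Lb N J (KK J U) →
        (s ++ Phi (KK J U) w ++ r ∈ plus (PP g sch J hJ (fun _ => e)) ↔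
         s ++ Phi (KK J U) w' ++ r ∈ plus (PP g sch J hJ (fun _ => e))))
    (bs bs' : List (Fin N → L))
    (hbs : fl bs = w ++ List.replicate (N - w.length % N) e)
    (hbs' : fl bs' = w' ++ List.replicate (N - w'.length % N) e) :
    w.length % N = w'.length % N ∧
      (adv g sch 0 ((fun _ => e), u0, v)
        (List.replicate (2*J+1) (fun _ => e) ++ bs ++ [fun _ => e])).2 =
      (adv g sch 0 ((fun _ => e), u0, v)
        (List.replicate (2*J+1) (fun _ => e) ++ bs' ++ [fun _ => e])).2 := by
  set st : Fin N → L := fun _ => e with hst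
  set x : (Fin N → L) × U × M := (st, u0, v) with hx
  set S0 := List.replicate (2*J+1) st with hS0
  have hS0l : S0.length = 2*J+1 := by rw [hS0, List.length_replicate]
  obtain ⟨i, hi1, hi2, hi3⟩ := hkill 0 x S0 (by omega)
  set ui := (adv g sch 0 x (S0.take i)).2.1 with hui
  set D := S0.drop i with hD
  have hDl : D.length = 2*J+1-i := by rw [hD, List.length_drop, hS0l]
  have hDne : D ≠ [] := by
    intro h
    rw [h, List.length_nil] at hDl; omega
  have hstate : ∀ R : List (Fin N → L), (adv g sch i (st, ui, 0) (D ++ R)).2 =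
      (adv g sch 0 x (S0 ++ R)).2 := by
    intro R
    have h1 : S0 ++ R = S0.take i ++ (D ++ R) := by
      rw [← List.append_assoc, hD, List.take_append_drop]
    rw [h1, adv_append g sch (S0.take i)]
    have h2 : 0 + (S0.take i).length = i := by rw [List.length_take]; omega
    rw [h2]
    have h3 : adv g sch 0 x (S0.take i) = ((adv g sch 0 x (S0.take i)).1, ui, 0) := by
      rw [← hi3]
    rw [h3]
    exact adv_zero g sch _ _ _ _ _
  set y := adv g sch 0 x (S0 ++ bs ++ [st]) with hy
  obtain ⟨i', hi1', hi2', hi3'⟩ := hkill (S0 ++ bs ++ [st]).length y (List.replicate (2*J) st)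
    (by rw [List.length_replicate])
  have htk : (List.replicate (2*J) st).take i' = List.replicate i' st := by
    rw [List.take_replicate, Nat.min_eq_left hi2']
  rw [htk] at hi3'
  have hyy : adv g sch (S0 ++ bs ++ [st]).length y (List.replicate i' st) =
      adv g sch 0 x (S0 ++ bs ++ [st] ++ List.replicate i' st) := by
    rw [adv_append, hy, Nat.zero_add]
  -- the run
  set run := D ++ (bs ++ List.replicate (1 + i') st) with hrun
  have hrep : List.replicate (1 + i') st = [st] ++ List.replicate i' st := by
    rw [Nat.add_comm, List.replicate_succ]; rfl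
  have hrunend : (adv g sch i (st, ui, 0) run).2 =
      (adv g sch 0 x (S0 ++ bs ++ [st] ++ List.replicate i' st)).2 := by
    rw [hrun, hstate, hrep]
    simp only [List.append_assoc]
  have hrz : (adv g sch i (st, ui, 0) run).2.2 = 0 := by
    rw [hrunend, ← hyy]; exact hi3'
  have hrunne : run ≠ [] := by rw [hrun]; simp [hDne]
  have hmem := mem_plus_of_run g sch J hJ st hN run.length run le_rfl hrunne i ui [st] (by simp) hrz
  set ue := (adv g sch i (st, ui, 0) run).2.1 with hue
  set ce := cut J hJ (i + run.length) ue with hce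
  have hce1 : 1 ≤ ce := cut_pos hJ _ _
  have hce2 : ce ≤ (KK J U) := cut_le J hJ _ _
  have hc2 : cut J hJ i ui ≤ (KK J U) := cut_le J hJ _ _
  set ρ := w.length % N with hρ
  set ρ' := w'.length % N with hρ'
  have hρlt : ρ < N := Nat.mod_lt _ hN
  have hρlt' : ρ' < N := Nat.mod_lt _ hN
  set s := (Phi (KK J U) (fl D)).drop (cut J hJ i ui) with hs
  set q := (N - ρ) + (1 + i') * N with hq
  set r := Phi (KK J U) (List.replicate q e) ++ (Phi (KK J U) (fl [st])).take ce with hr
  have hKD : (KK J U) < (Phi (KK J U) (fl D)).length := K_lt_fl (U := U) J hN hDne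
  have hsl : s.length + cut J hJ i ui = (2*J+1-i) * N * ((KK J U)+1) := by
    have hKD' := hKD
    rw [length_Phi, length_fl, hDl] at hKD'
    rw [hs, List.length_drop, length_Phi, length_fl, hDl]
    omega
  have hflst : fl [st] = List.replicate N e := by
    have := fl_replicate (N := N) e 1
    rw [one_mul] at this
    exact this
  have hrl : r.length = q * ((KK J U)+1) + ce := by
    rw [hr, List.length_append, List.length_take, length_Phi, length_Phi, hflst,
      List.length_replicate, List.length_replicate]
    have : (KK J U) + 1 ≤ N * ((KK J U)+1) := Nat.le_mul_of_pos_left _ hN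
    rw [Nat.min_eq_left (by omega)]
  have hz : slf g sch J hJ st i ui run [st] = s ++ Phi (KK J U) w ++ r := by
    rw [slf_eq g sch J hJ st hN i ui run [st] hrunne]
    rw [← hue, ← hce, hrun, fl_append, fl_append, fl_replicate, Phi_append, hbs]
    rw [List.drop_append_of_le_length (by omega)]
    rw [← hs, hr, List.append_assoc w, List.replicate_append_replicate, ← hq, Phi_append]
    simp only [List.append_assoc]
  rw [hz] at hmem
  have hsle : s.length ≤ Lb N J (KK J U) := by
    have h1 : (2*J+1-i) * N * ((KK J U)+1) ≤ (2*J+3) * N * ((KK J U)+1) :=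
      Nat.mul_le_mul_right _ (Nat.mul_le_mul_right _ (by omega))
    unfold Lb; omega
  have hqle : q + 1 ≤ (2*J+3) * N := by
    have h1 : (1+i') * N ≤ (1 + 2*J) * N := Nat.mul_le_mul_right _ (by omega)
    have h2 : (2*J+3) * N = (1+2*J) * N + N + N := by ring
    omega
  have hrle : r.length ≤ Lb N J (KK J U) := by
    have h1 : (q + 1) * ((KK J U)+1) ≤ (2*J+3) * N * ((KK J U)+1) := Nat.mul_le_mul_right _ hqle
    have h2 : (q+1) * ((KK J U)+1) = q * ((KK J U)+1) + ((KK J U)+1) := by ring
    unfold Lb; omega
  have hmem' := (htest s r hsle hrle).1 hmem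
  obtain ⟨l, hlne, hl, hleq⟩ := hmem'
  set run' := D ++ (bs' ++ List.replicate (2*J+3) st) with hrun'
  have hpre : l.flatten <+: (Phi (KK J U) (fl run')).drop (cut J hJ i ui) := by
    rw [← hleq, hrun', fl_append, fl_append, fl_replicate, Phi_append, hbs']
    rw [List.drop_append_of_le_length (by omega)]
    rw [← hs, List.append_assoc w', List.replicate_append_replicate, Phi_append,
      List.append_assoc s]
    rw [List.prefix_append_right_inj, List.prefix_append_right_inj]
    have h1 : r <+: Phi (KK J U) (List.replicate (q + N) e) := by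
      have h0 : List.replicate (q + N) e = List.replicate q e ++ List.replicate N e :=
        (List.replicate_append_replicate).symm
      rw [hr, h0, Phi_append, hflst, List.prefix_append_right_inj]
      exact List.take_prefix _ _
    apply h1.trans
    apply Phi_rep_prefix
    have h1 : (1+i') * N ≤ (1 + 2*J) * N := Nat.mul_le_mul_right _ (by omega)
    have h2 : (2*J+3) * N = (1+2*J) * N + N + N := by ring
    omega
  obtain ⟨r1, hr1, hr2, hr3⟩ := run_of_mem g sch J hJ st hN hper hkill l hl i ui run' hpre
  set u1 := (adv g sch i (st, ui, 0) (run'.take r1)).2.1 with hu1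
  set c1 := cut J hJ (i + r1) u1 with hc1
  have hc11 : 1 ≤ c1 := cut_pos hJ _ _
  have hc12 : c1 ≤ (KK J U) := cut_le J hJ _ _
  have hll : l.flatten.length = s.length + w'.length * ((KK J U)+1) + r.length := by
    rw [← hleq, List.length_append, List.length_append, length_Phi]
  have hmain : ((2*J+1-i) * N + w'.length + q) * ((KK J U)+1) + ce = (r1 * N) * ((KK J U)+1) + c1 := by
    have : ((2*J+1-i) * N + w'.length + q) * ((KK J U)+1) =
      (2*J+1-i) * N * ((KK J U)+1) + w'.length * ((KK J U)+1) + q * ((KK J U)+1) := by ring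
    rw [this]; omega
  have hcc : ce = c1 := by
    have h1 := congrArg (· % ((KK J U)+1)) hmain
    simp only [Nat.mul_add_mod_self_right] at h1
    rw [Nat.mod_eq_of_lt (by omega), Nat.mod_eq_of_lt (by omega)] at h1
    exact h1
  have hNN : (2*J+1-i) * N + w'.length + q = r1 * N := by
    apply Nat.eq_of_mul_eq_mul_right (Nat.succ_pos (KK J U))
    show ((2*J+1-i) * N + w'.length + q) * ((KK J U)+1) = (r1 * N) * ((KK J U)+1)
    omega
  have hρρ : ρ = ρ' := by
    have h1 : (w'.length + (N - ρ)) % N = 0 := by
      have h2 : (w'.length + (N-ρ)) + ((2*J+1-i) + (1+i')) * N = r1 * N := by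
        rw [← hNN, hq]; ring
      have h3 := congrArg (· % N) h2
      simp only [Nat.add_mul_mod_self_right, Nat.mul_mod_left] at h3
      exact h3
    have h4 : (ρ' + (N - ρ)) % N = 0 := by
      rw [hρ', Nat.mod_add_mod]; exact h1
    obtain ⟨c, hc⟩ := Nat.dvd_of_mod_eq_zero h4
    have hc1 : c = 1 := by
      rcases Nat.lt_trichotomy c 1 with h | h | h
      · have : c = 0 := by omega
        subst this; omega
      · exact h
      · have : N * 2 ≤ N * c := Nat.mul_le_mul_left _ h
        omega
    subst hc1
    omega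
  refine ⟨hρρ, ?_⟩
  have hbl' : bs'.length * N = w'.length + (N - ρ') := by
    have := congrArg List.length hbs'
    rw [length_fl, List.length_append, List.length_replicate] at this
    exact this
  have hr1eq : r1 = (2*J+1-i) + bs'.length + (1 + i') := by
    apply Nat.eq_of_mul_eq_mul_right hN
    rw [← hNN, hq, hρρ]
    have : ((2*J+1-i) + bs'.length + (1 + i')) * N =
      (2*J+1-i) * N + bs'.length * N + (1+i') * N := by ring
    rw [this, hbl']; omega
  have htake : run'.take r1 = D ++ (bs' ++ List.replicate (1+i') st) := by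
    rw [hrun', hr1eq, ← hDl, ← List.append_assoc, ← List.append_assoc]
    rw [← List.length_append, List.take_length_add_append, List.take_replicate,
      Nat.min_eq_left (by omega)]
  have hrunlen : run.length = (2*J+1-i) + (bs.length + (1+i')) := by
    rw [hrun, List.length_append, List.length_append, List.length_replicate, hDl]
  obtain ⟨hmod, huu⟩ := cut_inj J hJ _ _ _ _ (hce.symm.trans (hcc.trans hc1))
  have hmod2 : (S0 ++ bs ++ [st]).length % J = (S0 ++ bs' ++ [st]).length % J := by
    have h1 : ((S0 ++ bs ++ [st]).length + i') ≡ ((S0 ++ bs' ++ [st]).length + i') [MOD J] := by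
      unfold Nat.ModEq
      have e1 : (S0 ++ bs ++ [st]).length + i' = i + run.length := by
        rw [List.length_append, List.length_append, hS0l, List.length_singleton, hrunlen]; omega
      have e2 : (S0 ++ bs' ++ [st]).length + i' = i + r1 := by
        rw [List.length_append, List.length_append, hS0l, List.length_singleton, hr1eq]; omega
      rw [e1, e2]; exact hmod
    exact Nat.ModEq.add_right_cancel' _ h1
  have hrunend' : (adv g sch i (st, ui, 0) (run'.take r1)).2 =
      (adv g sch 0 x (S0 ++ bs' ++ [st] ++ List.replicate i' st)).2 := by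
    rw [htake, hstate, hrep]
    simp only [List.append_assoc]
  have hfin : (adv g sch 0 x (S0 ++ bs ++ [st] ++ List.replicate i' st)).2 =
      (adv g sch 0 x (S0 ++ bs' ++ [st] ++ List.replicate i' st)).2 := by
    rw [← hrunend, ← hrunend']
    exact Prod.ext huu (by rw [hrz, hr1])
  rw [adv_append g sch (S0 ++ bs ++ [st]), adv_append g sch (S0 ++ bs' ++ [st])] at hfin
  simp only [Nat.zero_add] at hfin
  have hblk : ∀ b : List (Fin N → L), (adv g sch 0 x (b ++ [st])).1 = st := by
    intro b
    rw [adv_append]; rfl
  have e1 : adv g sch 0 x (S0 ++ bs ++ [st]) = (st, (adv g sch 0 x (S0 ++ bs ++ [st])).2) :=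
    Prod.ext (hblk _) rfl
  have e2 : adv g sch 0 x (S0 ++ bs' ++ [st]) = (st, (adv g sch 0 x (S0 ++ bs' ++ [st])).2) :=
    Prod.ext (hblk _) rfl
  rw [e1, e2, adv_congr g sch _ _ _ _ (sch_mod sch J hper _ _ hmod2)] at hfin
  exact adv_inj g sch _ _ _ _ _ hfin

include hN hper hkill in
theorem recover (hfaith : ∀ a b : G, (∀ v : M, a • v = b • v) → a = b)
    (e : L) (u0 : U) (w w' : List L)
    (htest : ∀ s r : List (L × Fin (KK J U + 1)), s.length ≤ Lb N J (KK J U) →
        r.length ≤ Lb N J (KK J U) →
        (s ++ Phi (KK J U) w ++ r ∈ plus (PP g sch J hJ (fun _ => e)) ↔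
         s ++ Phi (KK J U) w' ++ r ∈ plus (PP g sch J hJ (fun _ => e))))
    (bs bs' : List (Fin N → L))
    (hbs : fl bs = w ++ List.replicate (N - w.length % N) e)
    (hbs' : fl bs' = w' ++ List.replicate (N - w'.length % N) e) :
    w.length % N = w'.length % N ∧
      PG g ((fun _ => e) :: bs ++ [fun _ => e]) = PG g ((fun _ => e) :: bs' ++ [fun _ => e]) := by
  have key := fun v => recover_aux g sch J hJ hN hper hkill e u0 v w w' htest bs bs' hbs hbs'
  refine ⟨(key 0).1, ?_⟩
  set st : Fin N → L := fun _ => e with hst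
  have h1 : PG g (st :: (List.replicate (2*J+1) st ++ bs ++ [st])) =
      PG g (st :: (List.replicate (2*J+1) st ++ bs' ++ [st])) := by
    apply hfaith
    intro v
    have h2 := congrArg Prod.snd (key v).2
    have h3 := congrArg Prod.snd (key 0).2
    rw [(adv_affine g sch _ 0 st u0 v).2, (adv_affine g sch _ 0 st u0 v).2, h3] at h2
    exact add_right_cancel h2
  have h4 : ∀ b : List (Fin N → L), PG g (st :: (List.replicate (2*J+1) st ++ b ++ [st])) =
      PG g (st :: b ++ [st]) * PG g (List.replicate (2*J+1) st ++ [st]) := by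
    intro b
    have h5 : st :: (List.replicate (2*J+1) st ++ b ++ [st]) =
        List.replicate (2*J+1) st ++ st :: (b ++ [st]) := by
      rw [List.append_assoc]
      have : st :: List.replicate (2*J+1) st = List.replicate (2*J+1) st ++ [st] := by
        rw [← List.replicate_succ, List.replicate_succ']
      rw [← List.cons_append, this, List.append_assoc]; rfl
    rw [h5, PG_split]; rfl
  rw [h4, h4] at h1
  exact mul_right_cancel h1

end

end Pool.Agent.R544.LG
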